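import Pool.Agent.Helper53.EK.HAD

set_option autoImplicit false

/-!
# Part AVL: bounds and Lipschitz bounds of the error terms
-/

namespace Pool.Agent.Helper69.EK

open Set Filter Topology Pool.Agent.Helper6K9.ES
open Pool.Agent.Helper6K9.EH (Prof Fam eX eY dst pt Tr mkFam Pv Shf S_PROF S_FLOW)
open scoped ContDiff

namespace AVLL

open HADL

/-- the distance of the parameters -/
def D (P P' W W' : ℝ) (p p' : E 1) : ℝ :=
  |p.1 0 - p'.1 0| + |p.1 1 - p'.1 1| + |P - P'| + |W - W'|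

theorem D_nonneg (P P' W W' : ℝ) (p p' : E 1) : 0 ≤ D P P' W W' p p' := by
  unfold D
  positivity

/-- `f` is of the order `V^(-n)`, with its Lipschitz constant -/
def BoW (R : ℝ) (n : ℕ) (f : PP → ℝ) (C V₀ : ℝ) : Prop :=
  ∀ (V P P' W W' : ℝ) (p p' : E 1), V₀ ≤ V → V / 2 ≤ P → V / 2 ≤ P' → |W| ≤ R → |W'| ≤ R →
    p.2 = p'.2 → |f (p, 1 / P, W)| ≤ C / V ^ n ∧
    |f (p, 1 / P, W) - f (p', 1 / P', W')| ≤ C / V ^ n * D P P' W W' p p'

/-- `f` is of the order `V^(-n)`, with its Lipschitz constant -/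
def Bo (R : ℝ) (n : ℕ) (f : PP → ℝ) : Prop := ∃ C V₀ : ℝ, 1 ≤ C ∧ 2 ≤ V₀ ∧ BoW R n f C V₀

theorem BoW.mono {R : ℝ} {n : ℕ} {f : PP → ℝ} {C V₀ C' V₀' : ℝ} (h : BoW R n f C V₀)
    (hV0 : 2 ≤ V₀) (hC : C ≤ C') (hV : V₀ ≤ V₀') : BoW R n f C' V₀' := by
  intro V P P' W W' p p' h1 h2 h3 h4 h5 h6
  obtain ⟨a1, a2⟩ := h V P P' W W' p p' (hV.trans h1) h2 h3 h4 h5 h6
  have hV1 : 0 < V := by linarith
  have h7 : C / V ^ n ≤ C' / V ^ n := div_le_div_of_nonneg_right hC (by positivity)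
  exact ⟨a1.trans h7, a2.trans (mul_le_mul_of_nonneg_right h7 (D_nonneg _ _ _ _ _ _))⟩

variable {R : ℝ}

theorem Bo.two {n m : ℕ} {f g : PP → ℝ} (hf : Bo R n f) (hg : Bo R m g) :
    ∃ C V₀ : ℝ, 1 ≤ C ∧ 2 ≤ V₀ ∧ BoW R n f C V₀ ∧ BoW R m g C V₀ := by
  obtain ⟨C, V, h1, h2, h3⟩ := hf
  obtain ⟨C', V', h1', h2', h3'⟩ := hg
  exact ⟨max C C', max V V', h1.trans (le_max_left _ _), h2.trans (le_max_left _ _),
    h3.mono h2 (le_max_left _ _) (le_max_left _ _),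
    h3'.mono h2' (le_max_right _ _) (le_max_right _ _)⟩

theorem Bo.add {n : ℕ} {f g : PP → ℝ} (hf : Bo R n f) (hg : Bo R n g) :
    Bo R n (fun z => f z + g z) := by
  obtain ⟨C, V₀, h1, h2, h3, h4⟩ := hf.two hg
  refine ⟨2 * C, V₀, by linarith, h2, ?_⟩
  intro V P P' W W' p p' k1 k2 k3 k4 k5 k6
  obtain ⟨a1, a2⟩ := h3 V P P' W W' p p' k1 k2 k3 k4 k5 k6
  obtain ⟨b1, b2⟩ := h4 V P P' W W' p p' k1 k2 k3 k4 k5 k6
  have e : 2 * C / V ^ n = C / V ^ n + C / V ^ n := by ring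
  rw [e]
  refine ⟨(abs_add_le _ _).trans (add_le_add a1 b1), ?_⟩
  have e2 : f (p, 1 / P, W) + g (p, 1 / P, W) - (f (p', 1 / P', W') + g (p', 1 / P', W')) =
    (f (p, 1 / P, W) - f (p', 1 / P', W')) + (g (p, 1 / P, W) - g (p', 1 / P', W')) := by ring
  rw [e2, add_mul]
  exact (abs_add_le _ _).trans (add_le_add a2 b2)

theorem Bo.mul {n m : ℕ} {f g : PP → ℝ} (hf : Bo R n f) (hg : Bo R m g) :
    Bo R (n + m) (fun z => f z * g z) := by
  obtain ⟨C, V₀, h1, h2, h3, h4⟩ := hf.two hg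
  refine ⟨2 * C * C, V₀, by nlinarith, h2, ?_⟩
  intro V P P' W W' p p' k1 k2 k3 k4 k5 k6
  obtain ⟨a1, a2⟩ := h3 V P P' W W' p p' k1 k2 k3 k4 k5 k6
  obtain ⟨b1, b2⟩ := h4 V P P' W W' p p' k1 k2 k3 k4 k5 k6
  obtain ⟨a3, -⟩ := h3 V P' P W' W p' p k1 k3 k2 k5 k4 k6.symm
  have hV : 0 < V := by linarith
  have hD := D_nonneg P P' W W' p p'
  have e : 2 * C * C / V ^ (n + m) = 2 * (C / V ^ n * (C / V ^ m)) := by
    rw [pow_add]
    field_simp
  have hp1 : 0 ≤ C / V ^ n := by positivity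
  have hp2 : 0 ≤ C / V ^ m := by positivity
  rw [e]
  refine ⟨?_, ?_⟩
  · rw [abs_mul]
    have := mul_le_mul a1 b1 (abs_nonneg _) hp1
    have := mul_nonneg hp1 hp2
    linarith
  · have e2 : f (p, 1 / P, W) * g (p, 1 / P, W) - f (p', 1 / P', W') * g (p', 1 / P', W') =
      (f (p, 1 / P, W) - f (p', 1 / P', W')) * g (p, 1 / P, W) +
      f (p', 1 / P', W') * (g (p, 1 / P, W) - g (p', 1 / P', W')) := by ring
    rw [e2]
    refine (abs_add_le _ _).trans ?_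
    rw [abs_mul, abs_mul]
    have q1 := mul_le_mul a2 b1 (abs_nonneg _) (mul_nonneg hp1 hD)
    have q2 := mul_le_mul a3 b2 (abs_nonneg _) hp1
    calc _ ≤ C / V ^ n * D P P' W W' p p' * (C / V ^ m) +
          C / V ^ n * (C / V ^ m * D P P' W W' p p') := add_le_add q1 q2
      _ = _ := by ring

theorem Bo.le {n m : ℕ} {f : PP → ℝ} (hf : Bo R n f) (h : m ≤ n) : Bo R m f := by
  obtain ⟨C, V₀, h1, h2, h3⟩ := hf
  refine ⟨C, V₀, h1, h2, ?_⟩
  intro V P P' W W' p p' k1 k2 k3 k4 k5 k6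
  obtain ⟨a1, a2⟩ := h3 V P P' W W' p p' k1 k2 k3 k4 k5 k6
  have hV : 1 ≤ V := by linarith
  have h4 : C / V ^ n ≤ C / V ^ m :=
    div_le_div_of_nonneg_left (by linarith) (by positivity) (pow_le_pow_right₀ hV h)
  exact ⟨a1.trans h4, a2.trans (mul_le_mul_of_nonneg_right h4 (D_nonneg _ _ _ _ _ _))⟩

theorem Bo.congr {n : ℕ} {f g : PP → ℝ} (hf : Bo R n f) (h : ∀ z, g z = f z) : Bo R n g := by
  have : g = f := funext h
  rw [this]
  exact hf

theorem bo_const (c : ℝ) : Bo R 0 (fun _ => c) := by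
  refine ⟨max 1 |c|, 2, le_max_left _ _, le_rfl, ?_⟩
  intro V P P' W W' p p' k1 k2 k3 k4 k5 k6
  rw [pow_zero, div_one, sub_self, abs_zero]
  have h : (1 : ℝ) ≤ max 1 |c| := le_max_left _ _
  exact ⟨le_max_right _ _, mul_nonneg (by linarith) (D_nonneg _ _ _ _ _ _)⟩

theorem Bo.const_mul {n : ℕ} {f : PP → ℝ} (hf : Bo R n f) (c : ℝ) : Bo R n (fun z => c * f z) := by
  have := (bo_const (R := R) c).mul hf
  rw [zero_add] at this
  exact this

theorem Bo.neg {n : ℕ} {f : PP → ℝ} (hf : Bo R n f) : Bo R n (fun z => -f z) :=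
  (hf.const_mul (-1)).congr fun z => by ring

theorem Bo.sub {n : ℕ} {f g : PP → ℝ} (hf : Bo R n f) (hg : Bo R n g) :
    Bo R n (fun z => f z - g z) := (hf.add hg.neg).congr fun z => by ring

/-- the function `δ` -/
theorem bo_dlW : BoW R 1 (fun z => z.2.1) 4 2 := by
  intro V P P' W W' p p' k1 k2 k3 k4 k5 k6
  have hV : 0 < V := by linarith
  have hP : 0 < P := by linarith
  have hP' : 0 < P' := by linarith
  rw [pow_one]
  simp only
  refine ⟨?_, ?_⟩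
  · rw [abs_of_pos (by positivity), div_le_div_iff₀ hP hV]
    linarith
  · have e : 1 / P - 1 / P' = (P' - P) / (P * P') := by field_simp
    rw [e, abs_div, abs_of_pos (mul_pos hP hP'), abs_sub_comm]
    have h1 : |P - P'| ≤ D P P' W W' p p' := by
      unfold D
      have a1 := abs_nonneg (p.1 0 - p'.1 0)
      have a2 := abs_nonneg (p.1 1 - p'.1 1)
      have a3 := abs_nonneg (W - W')
      linarith
    have h2 : V / 4 ≤ P * P' := by
      have : V / 2 * 1 ≤ P * P' := mul_le_mul k2 (by linarith) (by norm_num) (by linarith)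
      linarith
    rw [div_le_iff₀ (mul_pos hP hP')]
    have h3 : 1 ≤ 4 / V * (P * P') := by
      have : 4 / V * (V / 4) ≤ 4 / V * (P * P') := mul_le_mul_of_nonneg_left h2 (by positivity)
      have e4 : 4 / V * (V / 4) = 1 := by field_simp
      linarith
    have hD := D_nonneg P P' W W' p p'
    calc |P - P'| ≤ 1 * D P P' W W' p p' := by linarith
      _ ≤ (4 / V * (P * P')) * D P P' W W' p p' := mul_le_mul_of_nonneg_right h3 hD
      _ = _ := by ring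

theorem bo_dl : Bo R 1 (fun z => z.2.1) := ⟨4, 2, by norm_num, le_rfl, bo_dlW⟩

theorem bo_dlpow (N : ℕ) : Bo R N (fun z => z.2.1 ^ N) := by
  induction N with
  | zero => exact (bo_const 1).congr fun z => by simp
  | succ N ih => exact (ih.mul bo_dl).congr fun z => by rw [pow_succ]

/-- periodic continuous functions are bounded -/
theorem per_bd {G : Type*} [NormedAddCommGroup G] (f : PP → G) (hc : Continuous f)
    (hp : ∀ (k : Fin (1 + 1) → ℤ) (l : ℤ) (z : PP), f (z + per k l) = f z) (R : ℝ) :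
    ∃ M : ℝ, ∀ z : PP, z.2.1 ∈ Icc (0 : ℝ) 1 → |z.2.2| ≤ R → ‖f z‖ ≤ M := by
  have hK : IsCompact ((Icc (0 : Q 1) 1 ×ˢ Icc (0 : ℝ) 1) ×ˢ (Icc (0 : ℝ) 1 ×ˢ Icc (-R) R) :
      Set PP) := (isCompact_Icc.prod isCompact_Icc).prod (isCompact_Icc.prod isCompact_Icc)
  obtain ⟨M, hM⟩ := hK.exists_bound_of_continuousOn hc.continuousOn
  refine ⟨M, fun z h1 h2 => ?_⟩
  rw [← hp (fun i => -⌊z.1.1 i⌋) (-⌊z.1.2⌋) z]
  refine hM _ ⟨⟨⟨?_, ?_⟩, ?_, ?_⟩, ?_, ?_⟩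
  · intro i
    show (0 : ℝ) ≤ z.1.1 i + ((-⌊z.1.1 i⌋ : ℤ) : ℝ)
    push_cast
    linarith [Int.floor_le (z.1.1 i)]
  · intro i
    show z.1.1 i + ((-⌊z.1.1 i⌋ : ℤ) : ℝ) ≤ 1
    push_cast
    linarith [Int.lt_floor_add_one (z.1.1 i)]
  · show (0 : ℝ) ≤ z.1.2 + ((-⌊z.1.2⌋ : ℤ) : ℝ)
    push_cast
    linarith [Int.floor_le (z.1.2)]
  · show z.1.2 + ((-⌊z.1.2⌋ : ℤ) : ℝ) ≤ 1
    push_cast
    linarith [Int.lt_floor_add_one (z.1.2)]
  · show z.2.1 + 0 ∈ Icc (0 : ℝ) 1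
    rw [add_zero]
    exact h1
  · show z.2.2 + 0 ∈ Icc (-R) R
    rw [add_zero]
    exact abs_le.1 h2

/-- smooth periodic functions are bounded and Lipschitz -/
theorem bo_sp {a : PP → ℝ} (ha : SP a) : Bo R 0 a := by
  obtain ⟨M₀, hM₀⟩ := per_bd a ha.1.continuous (fun k l z => sp_per ha k l z) R
  obtain ⟨M₁, hM₁⟩ := per_bd (fderiv ℝ a) (cd_fderiv ha.1).continuous
    (fun k l z => fderiv_per ha k l z) R
  refine ⟨max 1 (max M₀ (4 * M₁)), 2, le_max_left _ _, le_rfl, ?_⟩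
  intro V P P' W W' p p' k1 k2 k3 k4 k5 k6
  have hV : 0 < V := by linarith
  have hP : 0 < P := by linarith
  have hP' : 0 < P' := by linarith
  rw [pow_zero, div_one]
  have hd : ∀ P : ℝ, V / 2 ≤ P → 1 / P ∈ Icc (0 : ℝ) 1 := by
    intro P hP
    have h0 : 0 < P := by linarith
    refine ⟨by positivity, ?_⟩
    rw [div_le_one h0]
    linarith
  refine ⟨(hM₀ (p, 1 / P, W) (hd P k2) k4).trans ((le_max_left _ _).trans (le_max_right _ _)), ?_⟩
  have hD := D_nonneg P P' W W' p p'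
  set s : Set PP := {z | z.2.1 ∈ Icc (0 : ℝ) 1 ∧ z.2.2 ∈ Icc (-R) R} with hs
  have hconv : Convex ℝ s := by
    have h1 : Convex ℝ ((fun z : PP => z.2.1) ⁻¹' Icc (0 : ℝ) 1) :=
      (convex_Icc (0 : ℝ) 1).is_linear_preimage (f := fun z : PP => z.2.1)
        ⟨fun _ _ => rfl, fun _ _ => rfl⟩
    have h2 : Convex ℝ ((fun z : PP => z.2.2) ⁻¹' Icc (-R) R) :=
      (convex_Icc (-R) R).is_linear_preimage (f := fun z : PP => z.2.2)
        ⟨fun _ _ => rfl, fun _ _ => rfl⟩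
    exact h1.inter h2
  have h1 := hconv.norm_image_sub_le_of_norm_fderiv_le (𝕜 := ℝ) (f := a) (C := M₁)
    (x := (p', 1 / P', W')) (y := (p, 1 / P, W))
    (fun z _ => diffb ha.1 z) (fun z hz => hM₁ z hz.1 (abs_le.2 hz.2))
    ⟨hd P' k3, abs_le.1 k5⟩ ⟨hd P k2, abs_le.1 k4⟩
  have hM1 : 0 ≤ M₁ := (norm_nonneg _).trans (hM₁ (p, 1 / P, W) (hd P k2) k4)
  have h2 : ‖((p, 1 / P, W) : PP) - (p', 1 / P', W')‖ ≤ 4 * D P P' W W' p p' := by
    obtain ⟨-, hdd⟩ := (bo_dlW (R := R)) V P P' W W' p p' k1 k2 k3 k4 k5 k6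
    have hx0 : |p.1 0 - p'.1 0| ≤ 4 * D P P' W W' p p' := by
      unfold D
      have a1 := abs_nonneg (p.1 0 - p'.1 0)
      have a2 := abs_nonneg (p.1 1 - p'.1 1)
      have a3 := abs_nonneg (W - W')
      have a4 := abs_nonneg (P - P')
      linarith
    have hx1 : |p.1 1 - p'.1 1| ≤ 4 * D P P' W W' p p' := by
      unfold D
      have a1 := abs_nonneg (p.1 0 - p'.1 0)
      have a2 := abs_nonneg (p.1 1 - p'.1 1)
      have a3 := abs_nonneg (W - W')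
      have a4 := abs_nonneg (P - P')
      linarith
    have hx2 : |W - W'| ≤ 4 * D P P' W W' p p' := by
      unfold D
      have a1 := abs_nonneg (p.1 0 - p'.1 0)
      have a2 := abs_nonneg (p.1 1 - p'.1 1)
      have a3 := abs_nonneg (W - W')
      have a4 := abs_nonneg (P - P')
      linarith
    have hx3 : |1 / P - 1 / P'| ≤ 4 * D P P' W W' p p' := by
      refine hdd.trans (mul_le_mul_of_nonneg_right ?_ hD)
      rw [pow_one, div_le_iff₀ hV]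
      linarith
    refine max_le (max_le ?_ ?_) (max_le hx3 hx2)
    · show ‖p.1 - p'.1‖ ≤ _
      rw [pi_norm_le_iff_of_nonneg (by linarith)]
      intro i
      fin_cases i
      · exact hx0
      · exact hx1
    · show ‖p.2 - p'.2‖ ≤ _
      rw [k6, sub_self, norm_zero]
      linarith
  have h3 : M₁ * ‖((p, 1 / P, W) : PP) - (p', 1 / P', W')‖ ≤ M₁ * (4 * D P P' W W' p p') :=
    mul_le_mul_of_nonneg_left h2 hM1
  have h4 : 4 * M₁ ≤ max 1 (max M₀ (4 * M₁)) := (le_max_right _ _).trans (le_max_right _ _)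
  calc |a (p, 1 / P, W) - a (p', 1 / P', W')| ≤ M₁ * (4 * D P P' W W' p p') := h1.trans h3
    _ = 4 * M₁ * D P P' W W' p p' := by ring
    _ ≤ _ := mul_le_mul_of_nonneg_right h4 hD

/-- inverses -/
theorem Bo.inv {f : PP → ℝ} {c : ℝ} (hc : c ≠ 0) (hf : Bo R 1 (fun z => f z - c)) :
    (∃ V₀ : ℝ, ∀ (V P W : ℝ) (p : E 1), V₀ ≤ V → V / 2 ≤ P → |W| ≤ R → f (p, 1 / P, W) ≠ 0) ∧
    Bo R 0 (fun z => (f z)⁻¹) ∧ Bo R 1 (fun z => (f z)⁻¹ - c⁻¹) := by
  obtain ⟨C, V₀, h1, h2, h3⟩ := id hf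
  have hc' : 0 < |c| := abs_pos.2 hc
  have key : ∀ (V P W : ℝ) (p : E 1), max V₀ (2 * C / |c|) ≤ V → V / 2 ≤ P → |W| ≤ R →
      |c| / 2 ≤ |f (p, 1 / P, W)| := by
    intro V P W p k1 k2 k3
    obtain ⟨a1, -⟩ := h3 V P P W W p p ((le_max_left _ _).trans k1) k2 k2 k3 k3 rfl
    have hV : 0 < V := by
      have := (le_max_left V₀ (2 * C / |c|)).trans k1
      linarith
    have h4 : 2 * C / |c| ≤ V := (le_max_right _ _).trans k1
    have h5 : C / V ^ 1 ≤ |c| / 2 := by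
      rw [pow_one, div_le_div_iff₀ hV (by norm_num)]
      rw [div_le_iff₀ hc'] at h4
      linarith
    have h6 : |c| ≤ |f (p, 1 / P, W)| + |f (p, 1 / P, W) - c| := by
      have := abs_sub_abs_le_abs_sub c (f (p, 1 / P, W))
      rw [abs_sub_comm] at this
      linarith
    linarith
  have hinv : Bo R 0 (fun z => (f z)⁻¹) := by
    refine ⟨max 1 (max (2 / |c|) (C * (4 / c ^ 2))), max V₀ (2 * C / |c|), le_max_left _ _,
      h2.trans (le_max_left _ _), ?_⟩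
    intro V P P' W W' p p' k1 k2 k3 k4 k5 k6
    have b1 := key V P W p k1 k2 k4
    have b2 := key V P' W' p' k1 k3 k5
    obtain ⟨-, a2⟩ := h3 V P P' W W' p p' ((le_max_left _ _).trans k1) k2 k3 k4 k5 k6
    have hV : 1 ≤ V := by
      have := (le_max_left V₀ (2 * C / |c|)).trans k1
      linarith
    have hD := D_nonneg P P' W W' p p'
    have n1 : 0 < |f (p, 1 / P, W)| := by linarith
    have n2 : 0 < |f (p', 1 / P', W')| := by linarith
    have m1 : f (p, 1 / P, W) ≠ 0 := abs_pos.1 n1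
    have m2 : f (p', 1 / P', W') ≠ 0 := abs_pos.1 n2
    rw [pow_zero, div_one]
    refine ⟨?_, ?_⟩
    · refine le_trans ?_ ((le_max_left _ _).trans (le_max_right _ _))
      rw [abs_inv, inv_eq_one_div, div_le_div_iff₀ n1 hc']
      linarith
    · have e : (f (p, 1 / P, W))⁻¹ - (f (p', 1 / P', W'))⁻¹ =
          (f (p', 1 / P', W') - f (p, 1 / P, W)) / (f (p, 1 / P, W) * f (p', 1 / P', W')) := by
        field_simp
      have a3 : |f (p', 1 / P', W') - f (p, 1 / P, W)| ≤ C * D P P' W W' p p' := by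
        rw [abs_sub_comm]
        have e2 : f (p, 1 / P, W) - f (p', 1 / P', W') =
          (f (p, 1 / P, W) - c) - (f (p', 1 / P', W') - c) := by ring
        rw [e2]
        refine a2.trans (mul_le_mul_of_nonneg_right ?_ hD)
        exact div_le_self (by linarith) (one_le_pow₀ hV)
      rw [e, abs_div, abs_mul, div_le_iff₀ (mul_pos n1 n2)]
      have b3 : c ^ 2 / 4 ≤ |f (p, 1 / P, W)| * |f (p', 1 / P', W')| := by
        have := mul_le_mul b1 b2 (by positivity) n1.le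
        have e3 : |c| / 2 * (|c| / 2) = c ^ 2 / 4 := by
          rw [← sq_abs c]
          ring
        linarith
      have hc2 : 0 < c ^ 2 := by positivity
      have b4 : 1 ≤ 4 / c ^ 2 * (|f (p, 1 / P, W)| * |f (p', 1 / P', W')|) := by
        have h5 := mul_le_mul_of_nonneg_left b3 (show 0 ≤ 4 / c ^ 2 by positivity)
        have e5 : 4 / c ^ 2 * (c ^ 2 / 4) = 1 := by field_simp
        linarith
      have hCD : 0 ≤ C * D P P' W W' p p' := mul_nonneg (by linarith) hD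
      calc |f (p', 1 / P', W') - f (p, 1 / P, W)| ≤ C * D P P' W W' p p' := a3
        _ ≤ C * D P P' W W' p p' *
          (4 / c ^ 2 * (|f (p, 1 / P, W)| * |f (p', 1 / P', W')|)) :=
            le_mul_of_one_le_right hCD b4
        _ = C * (4 / c ^ 2) * D P P' W W' p p' *
          (|f (p, 1 / P, W)| * |f (p', 1 / P', W')|) := by ring
        _ ≤ _ := by
          refine mul_le_mul_of_nonneg_right ?_ (mul_pos n1 n2).le
          refine mul_le_mul_of_nonneg_right ?_ hD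
          exact (le_max_right _ _).trans (le_max_right _ _)
  refine ⟨⟨max V₀ (2 * C / |c|), fun V P W p k1 k2 k3 => ?_⟩, hinv, ?_⟩
  · have b1 := key V P W p k1 k2 k3
    exact abs_pos.1 (by linarith)
  · -- `1/f - 1/c = - (f - c) / (c f)`
    obtain ⟨C', V₀', g1, g2, g3⟩ := (hinv.mul hf).const_mul (-c⁻¹)
    refine ⟨C', max V₀' (max V₀ (2 * C / |c|)), g1, g2.trans (le_max_left _ _), ?_⟩
    intro V P P' W W' p p' k1 k2 k3 k4 k5 k6
    have b1 := key V P W p ((le_max_right _ _).trans k1) k2 k4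
    have b2 := key V P' W' p' ((le_max_right _ _).trans k1) k3 k5
    have m1 : f (p, 1 / P, W) ≠ 0 := abs_pos.1 (by linarith)
    have m2 : f (p', 1 / P', W') ≠ 0 := abs_pos.1 (by linarith)
    have a := g3 V P P' W W' p p' ((le_max_left _ _).trans k1) k2 k3 k4 k5 k6
    have e1 : (f (p, 1 / P, W))⁻¹ - c⁻¹ =
        -c⁻¹ * ((f (p, 1 / P, W))⁻¹ * (f (p, 1 / P, W) - c)) := by
      field_simp
      ring
    have e2 : (f (p', 1 / P', W'))⁻¹ - c⁻¹ =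
        -c⁻¹ * ((f (p', 1 / P', W'))⁻¹ * (f (p', 1 / P', W') - c)) := by
      field_simp
      ring
    simp only
    rw [e1, e2]
    simpa using a

/-! ### The functions of the statement -/

theorem sp_pd {a : PP → ℝ} (ha : SP a) (v : PP) : SP (pd v a) := by
  refine sp_of ((cd_fderiv ha.1).clm_apply contDiff_const) ?_
  intro k l z
  unfold pd
  rw [fderiv_per ha]

theorem sp_dl {a : PP → ℝ} (ha : SP a) : SP (dl a) := by
  refine sp_of ((contDiff_fst.comp contDiff_snd).mul ha.1) ?_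
  intro k l z
  unfold dl
  rw [sp_per ha]
  simp [per]

/-- the derivative of `δ a` in a direction which does not change `δ` -/
theorem pd_dl {a : PP → ℝ} (ha : SP a) (v : PP) (hv : v.2.1 = 0) : pd v (dl a) = dl (pd v a) := by
  funext z
  unfold pd dl
  have h1 : HasFDerivAt (fun z : PP => z.2.1)
      ((ContinuousLinearMap.fst ℝ ℝ ℝ).comp (ContinuousLinearMap.snd ℝ (E 1) (ℝ × ℝ))) z :=
    ((ContinuousLinearMap.fst ℝ ℝ ℝ).comp (ContinuousLinearMap.snd ℝ (E 1) (ℝ × ℝ))).hasFDerivAt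
  have h2 := h1.mul (diffb ha.1 z).hasFDerivAt
  have h3 : HasFDerivAt (fun z : PP => z.2.1 * a z) (z.2.1 • fderiv ℝ a z + a z •
    (ContinuousLinearMap.fst ℝ ℝ ℝ).comp (ContinuousLinearMap.snd ℝ (E 1) (ℝ × ℝ))) z := h2
  rw [h3.fderiv]
  simp [hv]

theorem bo_dlsp {a : PP → ℝ} (ha : SP a) : Bo R 1 (dl a) := by
  have := (bo_dl (R := R)).mul (bo_sp ha)
  exact this

theorem bo_a11 {σ₁ : PP → ℝ} (h : SP σ₁) : Bo R 1 (a11 σ₁) := by
  have h1 : Bo R (2 + 0) (fun z => z.2.1 ^ 2 * pd vd (pd vx (dl σ₁)) z) :=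
    (bo_dlpow 2).mul (bo_sp (sp_pd (sp_pd (sp_dl h) vx) vd))
  exact (h1.neg.le (by norm_num)).congr fun z => rfl

theorem bo_a21 (b : ℝ) {σ₁ : PP → ℝ} (h : SP σ₁) : Bo R 1 (a21 b σ₁) := by
  have h1 : Bo R (2 + 0) (fun z => z.2.1 ^ 2 * pd vd (pd (vy b) (dl σ₁)) z) :=
    (bo_dlpow 2).mul (bo_sp (sp_pd (sp_pd (sp_dl h) (vy b)) vd))
  exact (h1.neg.le (by norm_num)).congr fun z => rfl

theorem bo_a12 {σ₁ : PP → ℝ} (h : SP σ₁) : Bo R 1 (a12 σ₁) := by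
  have e : a12 σ₁ = dl (pd vw (pd vx σ₁)) := by
    funext z
    unfold a12
    rw [pd_dl h vx rfl, pd_dl (sp_pd h vx) vw rfl]
  rw [e]
  exact bo_dlsp (sp_pd (sp_pd h vx) vw)

theorem bo_a22 (b : ℝ) {σ₁ : PP → ℝ} (h : SP σ₁) : Bo R 1 (a22 b σ₁) := by
  have e : a22 b σ₁ = dl (pd vw (pd (vy b) σ₁)) := by
    funext z
    unfold a22
    rw [pd_dl h (vy b) rfl, pd_dl (sp_pd h (vy b)) vw rfl]
  rw [e]
  exact bo_dlsp (sp_pd (sp_pd h (vy b)) vw)

theorem bo_dt (α γ b : ℝ) {σ₁ : PP → ℝ} (h : SP σ₁) :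
    Bo R 1 (fun z => dt α γ b σ₁ z - 1 / α * (1 / γ)) := by
  have h1 := (bo_a22 (R := R) b h).const_mul (1 / α)
  have h2 := (bo_a11 (R := R) h).const_mul (1 / γ)
  have h3 := ((bo_a11 (R := R) h).mul (bo_a22 b h)).le (show 1 ≤ 1 + 1 by norm_num)
  have h4 := ((bo_a12 (R := R) h).mul (bo_a21 b h)).le (show 1 ≤ 1 + 1 by norm_num)
  refine (((h1.add h2).add h3).sub h4).congr fun z => ?_
  unfold dt
  ring

theorem Bo.ev {n : ℕ} {f : PP → ℝ} (h : Bo R n f) :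
    ∀ᶠ x : ℝ × ℝ in atTop, BoW R n f x.1 x.2 := by
  obtain ⟨C, V₀, h1, h2, h3⟩ := h
  exact eventually_atTop.2 ⟨(C, V₀), fun x hx => h3.mono h2 hx.1 hx.2⟩

/-- the correction of the force in the direction of the slow variable -/
theorem bo_G {γ b : ℝ} {σ₁ h : PP → ℝ} {g₀ : E 1 → ℝ} (hs : SP σ₁) (hh : SP h)
    (hg : ∀ (p : E 1) (W : ℝ), pd (vy b) h (p, 0, W) = -g₀ p) :
    Bo R 1 (fun z => -(γ * pd (vy b) h (z + (γ * pd vw (dl σ₁) z) • vy b)) - γ * g₀ z.1) := by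
  have hsh : SP (fun z => pd (vy b) h (z + (γ * pd vw (dl σ₁) z) • vy b)) := by
    have h1 : SP (pd vw (dl σ₁)) := sp_pd (sp_dl hs) vw
    have h2 : SP (pd (vy b) h) := sp_pd hh (vy b)
    refine sp_of ?_ ?_
    · exact h2.1.comp (contDiff_id.add ((contDiff_const.mul h1.1).smul contDiff_const))
    · intro k l z
      rw [sp_per h1, show z + per k l + (γ * pd vw (dl σ₁) z) • vy b =
        z + (γ * pd vw (dl σ₁) z) • vy b + per k l by abel, sp_per h2]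
  obtain ⟨c, hc, hc2⟩ := had1 _ hsh
  have h0 : ∀ z : PP, pd vw (dl σ₁) (z.1, 0, z.2.2) = 0 := by
    intro z
    rw [pd_dl hs vw rfl]
    simp [dl]
  refine ((bo_dlsp (R := R) hc).const_mul (-γ)).congr fun z => ?_
  have h3 := hc2 z
  rw [h3, h0 z, mul_zero, zero_smul, add_zero, hg]
  unfold dl
  ring

/-- products with bounded factors -/
theorem est {A A' k k' K c d e : ℝ} (hA' : |A'| ≤ c) (hd : |A - A'| ≤ d) (hk : |k| ≤ K)
    (he : |k - k'| = e) : |k * A - k' * A'| ≤ K * d + c * e := by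
  have e1 : k * A - k' * A' = k * (A - A') + (k - k') * A' := by ring
  rw [e1]
  refine (abs_add_le _ _).trans ?_
  rw [abs_mul, abs_mul, he]
  have h1 := mul_le_mul hk hd (abs_nonneg _) ((abs_nonneg k).trans hk)
  have h2 := mul_le_mul_of_nonneg_left hA' (he ▸ abs_nonneg (k - k'))
  linarith

end AVLL

open AVLL HADL in
/-- **Part AVL.** -/
theorem avl : S_AVL := by
  intro κ α γ b R σ₁ h ρ g₀ hα hγ hs hh hr hg
  have hc : 1 / α * (1 / γ) ≠ 0 := by positivity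
  obtain ⟨⟨V₁, hV₁⟩, i0, i1⟩ := Bo.inv (R := R) hc (bo_dt α γ b hs)
  have hαγ : (1 / α * (1 / γ))⁻¹ = α * γ := by field_simp
  rw [hαγ] at i1
  have a11b := bo_a11 (R := R) hs
  have a12b := bo_a12 (R := R) hs
  have a21b := bo_a21 (R := R) b hs
  have a22b := bo_a22 (R := R) b hs
  have rxb := bo_sp (R := R) (sp_pd hr vx)
  have ryb := bo_sp (R := R) (sp_pd hr (vy b))
  have A : Bo R 1 (fun z => (1 / γ + a22 b σ₁ z) * (dt α γ b σ₁ z)⁻¹ - α) :=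
    ((i1.const_mul (1 / γ)).add ((a22b.mul i0).le (by norm_num))).congr fun z => by
      field_simp
      ring
  have B : Bo R 1 (fun z => a12 σ₁ z * (dt α γ b σ₁ z)⁻¹) := (a12b.mul i0).le (by norm_num)
  have c22 : Bo R 0 (fun z => 1 / γ + a22 b σ₁ z) := (bo_const _).add (a22b.le (by norm_num))
  have c11 : Bo R 0 (fun z => 1 / α + a11 σ₁ z) := (bo_const _).add (a11b.le (by norm_num))
  have E : Bo R (κ + 3) (fun z => z.2.1 ^ (κ + 3) * (((1 / γ + a22 b σ₁ z) * pd vx ρ z -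
      a12 σ₁ z * pd (vy b) ρ z) * (dt α γ b σ₁ z)⁻¹)) :=
    (bo_dlpow (κ + 3)).mul (m := 0) ((((c22.mul rxb).le (by norm_num)).sub
      (((a12b.le (m := 0) (by norm_num)).mul ryb).le (by norm_num))).mul (m := 0) i0)
  have A' : Bo R 1 (fun z => (1 / α + a11 σ₁ z) * (dt α γ b σ₁ z)⁻¹ - γ) :=
    ((i1.const_mul (1 / α)).add ((a11b.mul i0).le (by norm_num))).congr fun z => by
      field_simp
      ring
  have B' : Bo R 1 (fun z => a21 b σ₁ z * (dt α γ b σ₁ z)⁻¹) := (a21b.mul i0).le (by norm_num)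
  have E' : Bo R (κ + 3) (fun z => z.2.1 ^ (κ + 3) * (((1 / α + a11 σ₁ z) * pd (vy b) ρ z -
      a21 b σ₁ z * pd vx ρ z) * (dt α γ b σ₁ z)⁻¹)) :=
    (bo_dlpow (κ + 3)).mul (m := 0) ((((c11.mul ryb).le (by norm_num)).sub
      (((a21b.le (m := 0) (by norm_num)).mul rxb).le (by norm_num))).mul (m := 0) i0)
  have E1 := E.le (show 1 ≤ κ + 3 by omega)
  have E1' := E'.le (show 1 ≤ κ + 3 by omega)
  have G := bo_G (R := R) (γ := γ) hs hh hg
  have X : Bo R 1 (fun z => α * pd vx (dl σ₁) z) := by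
    rw [pd_dl hs vx rfl]
    exact (bo_dlsp (sp_pd hs vx)).const_mul α
  have Y : Bo R 1 (fun z => γ * pd (vy b) (dl σ₁) z) := by
    rw [pd_dl hs (vy b) rfl]
    exact (bo_dlsp (sp_pd hs (vy b))).const_mul γ
  obtain ⟨⟨C, V₀⟩, wA, wB, wE, wE1, wA', wB', wE1', wG, wX, wY, wV, wC⟩ :=
    (A.ev.and (B.ev.and (E.ev.and (E1.ev.and (A'.ev.and (B'.ev.and (E1'.ev.and (G.ev.and
      (X.ev.and (Y.ev.and ((eventually_ge_atTop ((0 : ℝ), V₁)).and
        (eventually_ge_atTop ((1 : ℝ), (2 : ℝ)))))))))))))).exists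
  have hC1 : 1 ≤ C := wC.1
  have hV2 : 2 ≤ V₀ := wC.2
  have hV1 : V₁ ≤ V₀ := wV.2
  simp only at wA wB wE wE1 wA' wB' wE1' wG wX wY
  have hb := abs_nonneg b
  refine ⟨(6 + 2 * |b|) * C, V₀, by nlinarith, by linarith, ?_⟩
  intro V P P' W W' kx kz kx' kz' p p' k1 k2 k3 k4 k5 m1 m2 m3 m4 k6
  have hV : 0 < V := by linarith
  obtain ⟨xA, yA⟩ := wA V P P' W W' p p' k1 k2 k3 k4 k5 k6
  obtain ⟨xB, yB⟩ := wB V P P' W W' p p' k1 k2 k3 k4 k5 k6
  obtain ⟨xE, -⟩ := wE V P P' W W' p p' k1 k2 k3 k4 k5 k6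
  obtain ⟨-, yE⟩ := wE1 V P P' W W' p p' k1 k2 k3 k4 k5 k6
  obtain ⟨xA', yA'⟩ := wA' V P P' W W' p p' k1 k2 k3 k4 k5 k6
  obtain ⟨xB', yB'⟩ := wB' V P P' W W' p p' k1 k2 k3 k4 k5 k6
  obtain ⟨xE', yE'⟩ := wE1' V P P' W W' p p' k1 k2 k3 k4 k5 k6
  obtain ⟨xG, yG⟩ := wG V P P' W W' p p' k1 k2 k3 k4 k5 k6
  obtain ⟨xX, yX⟩ := wX V P P' W W' p p' k1 k2 k3 k4 k5 k6
  obtain ⟨xY, yY⟩ := wY V P P' W W' p p' k1 k2 k3 k4 k5 k6
  obtain ⟨xA2, -⟩ := wA V P' P W' W p' p k1 k3 k2 k5 k4 k6.symm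
  obtain ⟨xB2, -⟩ := wB V P' P W' W p' p k1 k3 k2 k5 k4 k6.symm
  obtain ⟨xA2', -⟩ := wA' V P' P W' W p' p k1 k3 k2 k5 k4 k6.symm
  obtain ⟨xB2', -⟩ := wB' V P' P W' W p' p k1 k3 k2 k5 k4 k6.symm
  simp only at xE
  simp only [pow_one] at xA yA xB yB yE xA' yA' xB' yB' xE' yE' xG yG xX yX xY yY xA2 xB2 xA2' xB2'
  have hD := D_nonneg P P' W W' p p'
  have hD' : |p.1 0 - p'.1 0| + |p.1 1 - p'.1 1| + |P - P'| + |W - W'| = D P P' W W' p p' := rfl
  have hCV : 0 < C / V := by positivity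
  have hCD : 0 ≤ C / V * D P P' W W' p p' := mul_nonneg hCV.le hD
  have hCC : (6 + 2 * |b|) * C / V = (6 + 2 * |b|) * (C / V) := by ring
  have n1 := abs_nonneg kx
  have n2 := abs_nonneg kz
  have n3 := abs_nonneg (kx - kx')
  have n4 := abs_nonneg (kz - kz')
  have ePJ : ∀ (z : PP) (kx kz : ℝ), PJ α γ b (κ + 3) σ₁ ρ z kx kz - α * kx =
      kx * ((1 / γ + a22 b σ₁ z) * (dt α γ b σ₁ z)⁻¹ - α) - kz * (a12 σ₁ z * (dt α γ b σ₁ z)⁻¹) -
      z.2.1 ^ (κ + 3) * (((1 / γ + a22 b σ₁ z) * pd vx ρ z -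
        a12 σ₁ z * pd (vy b) ρ z) * (dt α γ b σ₁ z)⁻¹) := by
    intro z kx kz
    unfold PJ
    rw [div_eq_mul_inv]
    ring
  have eWJ : ∀ (z : PP) (kx kz : ℝ), WJ α γ b (κ + 3) σ₁ h ρ z kx kz - γ * (g₀ z.1 + kz) =
      (-(γ * pd (vy b) h (z + (γ * pd vw (dl σ₁) z) • vy b)) - γ * g₀ z.1) +
      kz * ((1 / α + a11 σ₁ z) * (dt α γ b σ₁ z)⁻¹ - γ) - kx * (a21 b σ₁ z * (dt α γ b σ₁ z)⁻¹) -
      z.2.1 ^ (κ + 3) * (((1 / α + a11 σ₁ z) * pd (vy b) ρ z -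
        a21 b σ₁ z * pd vx ρ z) * (dt α γ b σ₁ z)⁻¹) := by
    intro z kx kz
    unfold WJ
    rw [div_eq_mul_inv]
    ring
  rw [hD', hCC, ePJ, ePJ]
  have eW1 := eWJ (p, 1 / P, W) kx kz
  have eW2 := eWJ (p', 1 / P', W') kx' kz'
  simp only at eW1 eW2
  rw [eW1, eW2]
  simp only
  have hK : C / V ≤ (6 + 2 * |b|) * (C / V) := le_mul_of_one_le_left hCV.le (by linarith)
  have hKD : C / V * D P P' W W' p p' ≤ (6 + 2 * |b|) * (C / V) * D P P' W W' p p' :=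
    mul_le_mul_of_nonneg_right hK hD
  refine ⟨hV₁ V P W p (hV1.trans k1) k2 k4, xX.trans hK, xY.trans hK, ?_, ?_, yX.trans hKD,
    yY.trans hKD, ?_, ?_⟩
  · have q1 : |kx * ((1 / γ + a22 b σ₁ (p, 1 / P, W)) * (dt α γ b σ₁ (p, 1 / P, W))⁻¹ - α)| ≤
        |kx| * (C / V) := by
      rw [abs_mul]
      exact mul_le_mul_of_nonneg_left xA n1
    have q2 : |kz * (a12 σ₁ (p, 1 / P, W) * (dt α γ b σ₁ (p, 1 / P, W))⁻¹)| ≤
        |kz| * (C / V) := by
      rw [abs_mul]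
      exact mul_le_mul_of_nonneg_left xB n2
    have q3 : C / V ^ (κ + 3) ≤ ((6 + 2 * |b|) * (C / V)) ^ (κ + 3) := by
      have h1 : (6 + 2 * |b|) * (C / V) = ((6 + 2 * |b|) * C) / V := by ring
      rw [h1, div_pow]
      refine div_le_div_of_nonneg_right ?_ (by positivity)
      have h2 : 1 ≤ (6 + 2 * |b|) * C := by nlinarith
      have h3 : C ≤ (6 + 2 * |b|) * C := by nlinarith
      exact h3.trans (le_self_pow₀ h2 (by omega))
    have q4 := abs_sub (kx * ((1 / γ + a22 b σ₁ (p, 1 / P, W)) * (dt α γ b σ₁ (p, 1 / P, W))⁻¹ - α))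
      (kz * (a12 σ₁ (p, 1 / P, W) * (dt α γ b σ₁ (p, 1 / P, W))⁻¹))
    have q5 : 0 ≤ (5 + 2 * |b|) * (C / V * (|kx| + |kz|)) := by positivity
    have q6 : (6 + 2 * |b|) * (C / V) * (|kx| + |kz|) = C / V * (|kx| + |kz|) +
      (5 + 2 * |b|) * (C / V * (|kx| + |kz|)) := by ring
    rw [q6]
    refine (abs_sub _ _).trans ?_
    linarith
  · have q1 : |kz * ((1 / α + a11 σ₁ (p, 1 / P, W)) * (dt α γ b σ₁ (p, 1 / P, W))⁻¹ - γ)| ≤
        (2 + |b|) * (C / V) := by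
      rw [abs_mul]
      exact mul_le_mul m2 xA' (abs_nonneg _) (by linarith)
    have q2 : |kx * (a21 b σ₁ (p, 1 / P, W) * (dt α γ b σ₁ (p, 1 / P, W))⁻¹)| ≤
        (2 + |b|) * (C / V) := by
      rw [abs_mul]
      exact mul_le_mul m1 xB' (abs_nonneg _) (by linarith)
    refine (abs_sub _ _).trans ?_
    refine (add_le_add ((abs_sub _ _).trans (add_le_add ((abs_add_le _ _).trans
      (add_le_add xG q1)) q2)) xE').trans (le_of_eq ?_)
    ring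
  · have q1 := est xA2 yA m1 rfl (k' := kx')
    have q2 := est xB2 yB m2 rfl (k' := kz')
    set u1 := kx * ((1 / γ + a22 b σ₁ (p, 1 / P, W)) * (dt α γ b σ₁ (p, 1 / P, W))⁻¹ - α)
    set u2 := kx' * ((1 / γ + a22 b σ₁ (p', 1 / P', W')) * (dt α γ b σ₁ (p', 1 / P', W'))⁻¹ - α)
    set v1 := kz * (a12 σ₁ (p, 1 / P, W) * (dt α γ b σ₁ (p, 1 / P, W))⁻¹)
    set v2 := kz' * (a12 σ₁ (p', 1 / P', W') * (dt α γ b σ₁ (p', 1 / P', W'))⁻¹)
    set w1 := (1 / P) ^ (κ + 3) * (((1 / γ + a22 b σ₁ (p, 1 / P, W)) * pd vx ρ (p, 1 / P, W) -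
        a12 σ₁ (p, 1 / P, W) * pd (vy b) ρ (p, 1 / P, W)) * (dt α γ b σ₁ (p, 1 / P, W))⁻¹)
    set w2 := (1 / P') ^ (κ + 3) * (((1 / γ + a22 b σ₁ (p', 1 / P', W')) *
        pd vx ρ (p', 1 / P', W') - a12 σ₁ (p', 1 / P', W') * pd (vy b) ρ (p', 1 / P', W')) *
        (dt α γ b σ₁ (p', 1 / P', W'))⁻¹)
    have e1 : u1 - v1 - w1 - (u2 - v2 - w2) = (u1 - u2) - (v1 - v2) - (w1 - w2) := by ring
    rw [e1]
    refine (abs_sub _ _).trans ?_
    refine (add_le_add ((abs_sub _ _).trans (add_le_add q1 q2)) yE).trans ?_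
    have t1 : 0 ≤ (5 + 2 * |b|) * (C / V * |kx - kx'|) := by positivity
    have t2 : 0 ≤ (5 + 2 * |b|) * (C / V * |kz - kz'|) := by positivity
    have t3 : (6 + 2 * |b|) * (C / V) * (D P P' W W' p p' + |kx - kx'| + |kz - kz'|) =
      (6 + 2 * |b|) * (C / V * D P P' W W' p p') + C / V * |kx - kx'| +
      (5 + 2 * |b|) * (C / V * |kx - kx'|) + C / V * |kz - kz'| +
      (5 + 2 * |b|) * (C / V * |kz - kz'|) := by ring
    rw [t3]
    linarith
  · have q1 := est xA2' yA' m2 rfl (k' := kz')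
    have q2 := est xB2' yB' m1 rfl (k' := kx')
    set u1 := kz * ((1 / α + a11 σ₁ (p, 1 / P, W)) * (dt α γ b σ₁ (p, 1 / P, W))⁻¹ - γ)
    set u2 := kz' * ((1 / α + a11 σ₁ (p', 1 / P', W')) * (dt α γ b σ₁ (p', 1 / P', W'))⁻¹ - γ)
    set v1 := kx * (a21 b σ₁ (p, 1 / P, W) * (dt α γ b σ₁ (p, 1 / P, W))⁻¹)
    set v2 := kx' * (a21 b σ₁ (p', 1 / P', W') * (dt α γ b σ₁ (p', 1 / P', W'))⁻¹)
    set w1 := (1 / P) ^ (κ + 3) * (((1 / α + a11 σ₁ (p, 1 / P, W)) *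
        pd (vy b) ρ (p, 1 / P, W) - a21 b σ₁ (p, 1 / P, W) * pd vx ρ (p, 1 / P, W)) *
        (dt α γ b σ₁ (p, 1 / P, W))⁻¹)
    set w2 := (1 / P') ^ (κ + 3) * (((1 / α + a11 σ₁ (p', 1 / P', W')) *
        pd (vy b) ρ (p', 1 / P', W') - a21 b σ₁ (p', 1 / P', W') * pd vx ρ (p', 1 / P', W')) *
        (dt α γ b σ₁ (p', 1 / P', W'))⁻¹)
    set g1 := -(γ * pd (vy b) h ((p, 1 / P, W) + (γ * pd vw (dl σ₁) (p, 1 / P, W)) • vy b)) -
      γ * g₀ p
    set g2 := -(γ * pd (vy b) h ((p', 1 / P', W') +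
      (γ * pd vw (dl σ₁) (p', 1 / P', W')) • vy b)) - γ * g₀ p'
    have e1 : g1 + u1 - v1 - w1 - (g2 + u2 - v2 - w2) =
      (g1 - g2) + (u1 - u2) - (v1 - v2) - (w1 - w2) := by ring
    rw [e1]
    refine (abs_sub _ _).trans ?_
    refine (add_le_add ((abs_sub _ _).trans (add_le_add ((abs_add_le _ _).trans
      (add_le_add yG q1)) q2)) yE').trans ?_
    have t1 : 0 ≤ (5 + 2 * |b|) * (C / V * |kx - kx'|) := by positivity
    have t2 : 0 ≤ (5 + 2 * |b|) * (C / V * |kz - kz'|) := by positivity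
    have t3 : (6 + 2 * |b|) * (C / V) * (D P P' W W' p p' + |kx - kx'| + |kz - kz'|) =
      (6 + 2 * |b|) * (C / V * D P P' W W' p p') + C / V * |kx - kx'| +
      (5 + 2 * |b|) * (C / V * |kx - kx'|) + C / V * |kz - kz'| +
      (5 + 2 * |b|) * (C / V * |kz - kz'|) := by ring
    rw [t3]
    linarith

end Pool.Agent.Helper69.EK
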