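import Pool.Agent.Helper69.EK.Stm
import Pool.Graph.R_seed8.W585.Param

set_option autoImplicit false

/-!
# Part HAD: Hadamard's lemma, averages and antiderivatives for smooth periodic functions
-/

namespace Pool.Agent.Helper69.EK

open Set Filter Topology Pool.Agent.Helper6K9.ES
open Pool.Agent.Helper6K9.EH (Prof Fam eX eY dst pt Tr mkFam Pv Shf S_PROF S_FLOW)
open scoped ContDiff

namespace HADL

open MeasureTheory intervalIntegral

/-- a period -/
def per (k : Fin (1 + 1) → ℤ) (l : ℤ) : PP := ((fun i => (k i : ℝ), (l : ℝ)), 0, 0)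

theorem sp_per {a : PP → ℝ} (h : SP a) (k : Fin (1 + 1) → ℤ) (l : ℤ) (z : PP) :
    a (z + per k l) = a z := by
  have h1 := h.2 z.1 k l z.2.1 z.2.2
  have e : z + per k l = ((z.1.1 + (fun i => (k i : ℝ)), z.1.2 + l), z.2.1, z.2.2) := by
    simp [per, Prod.ext_iff]
  rw [e, h1]

theorem sp_of {a : PP → ℝ} (h : ContDiff ℝ ∞ a)
    (h2 : ∀ (k : Fin (1 + 1) → ℤ) (l : ℤ) (z : PP), a (z + per k l) = a z) : SP a := by
  refine ⟨h, fun p k l δ W => ?_⟩
  have h1 := h2 k l (p, δ, W)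
  have e : (p, δ, W) + per k l = ((p.1 + (fun i => (k i : ℝ)), p.2 + l), δ, W) := by
    simp [per, Prod.ext_iff]
  rw [e] at h1
  exact h1

theorem fderiv_per {a : PP → ℝ} (h : SP a) (k : Fin (1 + 1) → ℤ) (l : ℤ) (z : PP) :
    fderiv ℝ a (z + per k l) = fderiv ℝ a z := by
  have e : (fun z => a (z + per k l)) = a := funext fun z => sp_per h k l z
  conv_rhs => rw [← e]
  rw [fderiv_comp_add_right]

theorem diffb {a : PP → ℝ} (h : ContDiff ℝ ∞ a) : Differentiable ℝ a :=
  h.differentiable (by simp)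

theorem cd_fderiv {a : PP → ℝ} (h : ContDiff ℝ ∞ a) : ContDiff ℝ ∞ (fderiv ℝ a) :=
  h.fderiv_right (by simp)

theorem hasDeriv_line {a : PP → ℝ} (h : ContDiff ℝ ∞ a) (z v : PP) (x y s : ℝ) :
    HasDerivAt (fun s => a (z + ((1 - s) * x + s * y) • v))
      ((y - x) * fderiv ℝ a (z + ((1 - s) * x + s * y) • v) v) s := by
  have h1 : HasDerivAt (fun s : ℝ => (1 - s) * x + s * y) (y - x) s := by
    have h2 : HasDerivAt (fun s : ℝ => (1 - s) * x + s * y) (-1 * x + 1 * y) s :=
      (((hasDerivAt_id s).const_sub 1).mul_const x).add ((hasDerivAt_id s).mul_const y)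
    exact h2.congr_deriv (by ring)
  have h3 : HasDerivAt (fun s : ℝ => z + ((1 - s) * x + s * y) • v) ((y - x) • v) s :=
    (h1.smul_const v).const_add z
  have h4 : HasDerivAt (fun s => a (z + ((1 - s) * x + s * y) • v))
      (fderiv ℝ a (z + ((1 - s) * x + s * y) • v) ((y - x) • v)) s :=
    (diffb h (z + ((1 - s) * x + s * y) • v)).hasFDerivAt.comp_hasDerivAt s h3
  exact h4.congr_deriv (by rw [map_smul, smul_eq_mul])

theorem ftc {a : PP → ℝ} (h : ContDiff ℝ ∞ a) (z v : PP) (x y : ℝ) :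
    a (z + y • v) = a (z + x • v) +
      (y - x) * ∫ s in (0 : ℝ)..1, fderiv ℝ a (z + ((1 - s) * x + s * y) • v) v := by
  have hc : Continuous fun s : ℝ => fderiv ℝ a (z + ((1 - s) * x + s * y) • v) v := by
    have h1 : Continuous (fderiv ℝ a) := (cd_fderiv h).continuous
    have h2 : Continuous fun s : ℝ => z + ((1 - s) * x + s * y) • v := by fun_prop
    exact (h1.comp h2).clm_apply continuous_const
  have h1 := integral_eq_sub_of_hasDerivAt (a := (0 : ℝ)) (b := 1)
    (fun s _ => hasDeriv_line h z v x y s)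
    ((continuous_const.mul hc).intervalIntegrable _ _)
  rw [intervalIntegral.integral_const_mul] at h1
  rw [h1]
  simp

/-- smoothness of the integrals of the derivative along segments -/
theorem sp_int {a g g' : PP → ℝ} (v : PP) (L : PP →L[ℝ] PP) (hL : ∀ k l, L (per k l) = per k l)
    (ha : SP a) (hg : ContDiff ℝ ∞ g) (hg' : ContDiff ℝ ∞ g')
    (pg : ∀ k l z, g (z + per k l) = g z) (pg' : ∀ k l z, g' (z + per k l) = g' z) :
    SP fun z => ∫ s in (0 : ℝ)..1, fderiv ℝ a (L z + ((1 - s) * g z + s * g' z) • v) v := by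
  refine sp_of ?_ ?_
  · refine Pool.Agent.W585.contDiff_param
      (F := fun z s => fderiv ℝ a (L z + ((1 - s) * g z + s * g' z) • v) v) ?_ 0 1
    have h1 : ContDiff ℝ ∞ (fun p : PP × ℝ => L p.1 + ((1 - p.2) * g p.1 + p.2 * g' p.1) • v) := by
      have e1 : ContDiff ℝ ∞ (fun p : PP × ℝ => g p.1) := hg.comp contDiff_fst
      have e2 : ContDiff ℝ ∞ (fun p : PP × ℝ => g' p.1) := hg'.comp contDiff_fst
      have e3 : ContDiff ℝ ∞ (fun p : PP × ℝ => L p.1) := L.contDiff.comp contDiff_fst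
      exact e3.add ((((contDiff_const.sub contDiff_snd).mul e1).add
        (contDiff_snd.mul e2)).smul contDiff_const)
    exact ((cd_fderiv ha.1).comp h1).clm_apply contDiff_const
  · intro k l z
    refine intervalIntegral.integral_congr fun s _ => ?_
    rw [pg, pg', map_add, hL, show L z + per k l + ((1 - s) * g z + s * g' z) • v =
      L z + ((1 - s) * g z + s * g' z) • v + per k l by abel, fderiv_per ha]

/-- the projection to `δ = 0` -/
noncomputable def L0 : PP →L[ℝ] PP :=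
  (ContinuousLinearMap.fst ℝ (E 1) (ℝ × ℝ)).prod
    ((0 : PP →L[ℝ] ℝ).prod ((ContinuousLinearMap.snd ℝ ℝ ℝ).comp
      (ContinuousLinearMap.snd ℝ (E 1) (ℝ × ℝ))))

theorem L0_apply (z : PP) : L0 z = (z.1, 0, z.2.2) := rfl

theorem had1 (a : PP → ℝ) (ha : SP a) :
    ∃ c : PP → ℝ, SP c ∧ ∀ z : PP, a z = a (z.1, 0, z.2.2) + z.2.1 * c z := by
  refine ⟨_, sp_int (g := fun _ => 0) (g' := fun z => z.2.1) vd L0 ?_ ha contDiff_const ?_ ?_ ?_,
    fun z => ?_⟩
  · intro k l
    simp [L0_apply, per]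
  · exact contDiff_fst.comp contDiff_snd
  · intro k l z; rfl
  · intro k l z; simp [per]
  · have h := ftc ha.1 (L0 z) vd 0 z.2.1
    have e : L0 z + z.2.1 • vd = z := by
      simp [L0_apply, vd]
    rw [e] at h
    rw [h]
    simp [L0_apply]

theorem had2 (a g g' : PP → ℝ) (v : PP) (ha : SP a) (hg : SP g) (hg' : SP g') :
    ∃ c : PP → ℝ, SP c ∧
    ∀ z : PP, a (z + (z.2.1 * g' z) • v) = a (z + (z.2.1 * g z) • v) + z.2.1 * (g' z - g z) * c z := by
  have hd : ContDiff ℝ ∞ (fun z : PP => z.2.1) := contDiff_fst.comp contDiff_snd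
  refine ⟨_, sp_int (g := fun z => z.2.1 * g z) (g' := fun z => z.2.1 * g' z) v
    (ContinuousLinearMap.id ℝ PP) ?_ ha (hd.mul hg.1) (hd.mul hg'.1) ?_ ?_, fun z => ?_⟩
  · intro k l; rfl
  · intro k l z
    simp only [sp_per hg]
    simp [per]
  · intro k l z
    simp only [sp_per hg']
    simp [per]
  · rw [ftc ha.1 z v (z.2.1 * g z) (z.2.1 * g' z), mul_sub]
    rfl

theorem vx_per : vx = per (Pi.single 0 1) 0 := by
  unfold vx per
  simp only [Prod.mk.injEq, Int.cast_zero, and_true]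
  funext i
  fin_cases i <;> simp

theorem sm_line {a : PP → ℝ} (ha : ContDiff ℝ ∞ a) (f : ℝ → ℝ) (hf : ContDiff ℝ ∞ f) :
    ContDiff ℝ ∞ (fun p : PP × ℝ => f p.2 * a (p.1 + p.2 • vx)) := by
  have h1 : ContDiff ℝ ∞ (fun p : PP × ℝ => p.1 + p.2 • vx) :=
    contDiff_fst.add (contDiff_snd.smul contDiff_const)
  exact (hf.comp contDiff_snd).mul (ha.comp h1)

theorem sp_line {a : PP → ℝ} (ha : SP a) (f : ℝ → ℝ) (hf : ContDiff ℝ ∞ f) :
    SP fun z => ∫ s in (0 : ℝ)..1, f s * a (z + s • vx) := by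
  refine sp_of (Pool.Agent.W585.contDiff_param (F := fun z s => f s * a (z + s • vx))
    (sm_line ha.1 f hf) 0 1) ?_
  intro k l z
  refine intervalIntegral.integral_congr fun s _ => ?_
  rw [show z + per k l + s • vx = z + s • vx + per k l by abel, sp_per ha]

theorem pd_line {a : PP → ℝ} (ha : SP a) (f : ℝ → ℝ) (hf : ContDiff ℝ ∞ f) (z : PP) :
    pd vx (fun z => ∫ s in (0 : ℝ)..1, f s * a (z + s • vx)) z =
      (f 1 - f 0) * a z - ∫ s in (0 : ℝ)..1, deriv f s * a (z + s • vx) := by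
  unfold pd
  rw [Pool.Agent.W585.fderiv_param_apply (F := fun z s => f s * a (z + s • vx))
    ((sm_line ha.1 f hf).of_le (by simp))]
  have hd : ∀ s : ℝ, HasDerivAt (fun s : ℝ => a (z + s • vx)) (fderiv ℝ a (z + s • vx) vx) s := by
    intro s
    have h := hasDeriv_line ha.1 z vx 0 1 s
    simpa using h
  have e : ∀ s : ℝ, fderiv ℝ (fun y => f s * a (y + s • vx)) z vx =
      f s * fderiv ℝ a (z + s • vx) vx := by
    intro s
    have h := ((diffb ha.1 (z + s • vx)).hasFDerivAt.comp z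
      ((hasFDerivAt_id z).add_const (s • vx))).const_mul (f s)
    have h' : HasFDerivAt (fun y => f s * a (y + s • vx))
      (f s • (fderiv ℝ a (z + s • vx)).comp (ContinuousLinearMap.id ℝ PP)) z := h
    rw [h'.fderiv]
    simp
  simp only [e]
  have hfd : ∀ s : ℝ, HasDerivAt f (deriv f s) s := fun s =>
    ((hf.differentiable (by simp)) s).hasDerivAt
  have hc1 : Continuous (deriv f) := hf.continuous_deriv (by simp)
  have hc2 : Continuous fun s : ℝ => fderiv ℝ a (z + s • vx) vx := by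
    have h1 : Continuous (fderiv ℝ a) := (cd_fderiv ha.1).continuous
    have h2 : Continuous fun s : ℝ => z + s • vx := by fun_prop
    exact (h1.comp h2).clm_apply continuous_const
  have h := intervalIntegral.integral_mul_deriv_eq_deriv_mul (a := (0 : ℝ)) (b := 1)
    (fun s _ => hfd s) (fun s _ => hd s) (hc1.intervalIntegrable _ _)
    (hc2.intervalIntegrable _ _)
  rw [h]
  have e1 : a (z + (1 : ℝ) • vx) = a z := by
    rw [one_smul, vx_per, sp_per ha]
  have e0 : a (z + (0 : ℝ) • vx) = a z := by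
    rw [zero_smul, add_zero]
  rw [e1, e0]
  ring

theorem had3 (a : PP → ℝ) (ha : SP a) (h0 : ∀ z : PP, a z = a (z.1, 0, z.2.2)) :
    ∃ A B : PP → ℝ, SP A ∧ SP B ∧
    (∀ z, A z = A (z.1, 0, z.2.2)) ∧ (∀ z, B z = B (z.1, 0, z.2.2)) ∧
    (∀ z, pd vx A z = 0) ∧ (∀ z, pd vx B z = a z - A z) ∧
    ∀ (F : E 1 → ℝ) (c : ℝ), (∀ z : PP, a z = c * F z.1) → ∀ z : PP, A z = c * av F z.1 := by
  have key : ∀ (z : PP) (s : ℝ), a (z + s • vx) = a ((z.1, 0, z.2.2) + s • vx) := by
    intro z s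
    rw [h0 (z + s • vx), h0 ((z.1, 0, z.2.2) + s • vx)]
    simp [vx]
  have hf1 : ContDiff ℝ ∞ (fun _ : ℝ => (1 : ℝ)) := contDiff_const
  have hf2 : ContDiff ℝ ∞ (fun s : ℝ => s - 1 / 2) := contDiff_id.sub contDiff_const
  refine ⟨fun z => ∫ s in (0 : ℝ)..1, (fun _ => (1 : ℝ)) s * a (z + s • vx),
    fun z => ∫ s in (0 : ℝ)..1, (fun s => s - 1 / 2) s * a (z + s • vx),
    sp_line ha _ hf1, sp_line ha _ hf2, ?_, ?_, ?_, ?_, ?_⟩
  · intro z
    refine intervalIntegral.integral_congr fun s _ => ?_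
    rw [key]
  · intro z
    refine intervalIntegral.integral_congr fun s _ => ?_
    rw [key]
  · intro z
    rw [pd_line ha _ hf1]
    simp
  · intro z
    rw [pd_line ha _ hf2]
    have e : ∀ s : ℝ, deriv (fun s : ℝ => s - 1 / 2) s = 1 := by
      intro s
      simp
    simp only [e]
    ring_nf
  · intro F c hF z
    simp only [one_mul, hF, av]
    rw [intervalIntegral.integral_const_mul]
    congr 1
    refine intervalIntegral.integral_congr fun s _ => ?_
    have e : (z + s • vx).1 = (z.1.1 + s • Pi.single 0 1, z.1.2) := by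
      simp [vx, Prod.ext_iff]
    rw [e]

end HADL

/-- **Part HAD.** -/
theorem had : S_HAD := ⟨HADL.had1, HADL.had2, HADL.had3⟩

end Pool.Agent.Helper69.EK
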