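import Pool.Agent.Helper69.EK.Stm

set_option autoImplicit false

/-!
# Part SHA: the shapes of the bumps
-/

namespace Pool.Agent.Helper69.EK

open Set Filter Topology Pool.Agent.Helper6K9.ES
open Pool.Agent.Helper6K9.EH (Prof Fam eX eY dst pt Tr mkFam Pv Shf S_PROF S_FLOW)
open scoped ContDiff

namespace SHAL

/-- smooth staircase, constant on `[n - 1/16, n + 29/32]` -/
noncomputable def stair (z : ℝ) : ℝ := ⌊z⌋ + Real.smoothTransition ((Int.fract z - 29 / 32) * 32)

theorem stair_loc (m : ℤ) {z : ℝ} (h1 : (m : ℝ) + 1 / 4 < z) (h2 : z < m + 3 / 2) :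
    stair z = m + Real.smoothTransition ((z - m - 29 / 32) * 32) := by
  unfold stair
  by_cases h : z < m + 1
  · by_cases h' : (m : ℝ) ≤ z
    · have : ⌊z⌋ = m := Int.floor_eq_iff.2 ⟨h', h⟩
      rw [Int.fract, this]
    · exact absurd h1 (by linarith)
  · have : ⌊z⌋ = m + 1 := Int.floor_eq_iff.2 ⟨by push_cast; linarith, by push_cast; linarith⟩
    rw [Int.fract, this, Real.smoothTransition.zero_of_nonpos (by push_cast; linarith),
      Real.smoothTransition.one_of_one_le (by linarith)]
    push_cast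
    ring

theorem stair_add (z : ℝ) (n : ℤ) : stair (z + n) = stair z + n := by
  unfold stair
  rw [Int.floor_add_intCast, Int.fract_add_intCast]
  push_cast
  ring

theorem stair_smooth : ContDiff ℝ ∞ stair := by
  rw [contDiff_iff_contDiffAt]
  intro z
  set m : ℤ := ⌊z - 3 / 8⌋ with hm
  have h1 : (m : ℝ) ≤ z - 3 / 8 := Int.floor_le _
  have h2 : z - 3 / 8 < m + 1 := Int.lt_floor_add_one _
  have h3 : ContDiff ℝ ∞ fun z : ℝ => (m : ℝ) + Real.smoothTransition ((z - m - 29 / 32) * 32) := by
    have h4 : ContDiff ℝ ∞ fun z : ℝ => (z - m - 29 / 32) * 32 := by fun_prop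
    exact contDiff_const.add (Real.smoothTransition.contDiff.comp h4)
  refine h3.contDiffAt.congr_of_eventuallyEq ?_
  filter_upwards [isOpen_Ioo.mem_nhds (⟨by linarith, by linarith⟩ :
    z ∈ Ioo ((m : ℝ) + 1 / 4) (m + 3 / 2))] with w hw
  exact stair_loc m hw.1 hw.2

/-- the periodic function with derivative `1` on `[0, 7/8]` -/
noncomputable def psi (z : ℝ) : ℝ := z - stair z

theorem psi_smooth : ContDiff ℝ ∞ psi := contDiff_id.sub stair_smooth

theorem psi_add (z : ℝ) (n : ℤ) : psi (z + n) = psi z := by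
  unfold psi; rw [stair_add]; ring

theorem psi_deriv {z : ℝ} (hz : z ∈ Icc (0 : ℝ) (7 / 8)) : deriv psi z = 1 := by
  have h : psi =ᶠ[𝓝 z] fun w => w := by
    filter_upwards [isOpen_Ioo.mem_nhds (⟨by linarith [hz.1], by linarith [hz.2]⟩ :
      z ∈ Ioo (-(1 / 32) : ℝ) (29 / 32))] with w hw
    unfold psi
    have h1 := stair_loc (-1) (z := w) (by push_cast; linarith [hw.1])
    by_cases h2 : w < 1 / 2
    · rw [h1 (by push_cast; linarith), Real.smoothTransition.one_of_one_le
        (by push_cast; linarith [hw.1])]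
      push_cast
      ring
    · rw [stair_loc 0 (by push_cast; linarith) (by push_cast; linarith [hw.2]),
        Real.smoothTransition.zero_of_nonpos (by push_cast; linarith [hw.2])]
      push_cast
      ring
  rw [h.deriv_eq]
  exact deriv_id z

theorem psi_deriv_add (z : ℝ) (n : ℤ) : deriv psi (z + n) = deriv psi z := by
  have h : (fun w => psi (w + n)) = psi := funext fun w => psi_add w n
  conv_rhs => rw [← h]
  rw [deriv_comp_add_const]

end SHAL

open SHAL in
/-- **Part SHA.** -/
theorem sha : S_SHA := by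
  intro u hu hu1
  let fβ : ContDiffBump (0 : ℝ) := ⟨5 / 4, 3 / 2, by norm_num, by norm_num⟩
  let fc : ContDiffBump (0 : ℝ) := ⟨1 / 2, 1, by norm_num, by norm_num⟩
  let fx : ContDiffBump (1 / 2 - u / 8 : ℝ) := ⟨u / 32, u / 16, by positivity, by linarith⟩
  have hx : ∀ y, fx y ≠ 0 → |y - (1 / 2 - u / 8)| < u / 16 := by
    intro y hy
    by_contra hc
    exact hy (fx.zero_of_le_dist (by rw [Real.dist_eq]; exact not_lt.1 hc))
  have hc0 : ∀ z, 1 ≤ |z| → fc z = 0 := by
    intro z hz
    exact fc.zero_of_le_dist (by rw [Real.dist_eq, sub_zero]; exact hz)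
  refine ⟨fx, fc, fβ, psi, ⟨fβ.contDiff, ?_, ?_, fc.contDiff, ?_, fx.contDiff, ?_, psi_smooth,
    psi_add⟩,
    ⟨fx.contDiff, fun y => fx.nonneg, ?_, ?_, ?_, psi_deriv_add, fun z hz => psi_deriv hz,
      fc.continuous, fun z => ⟨fc.nonneg, fc.le_one⟩, ?_, hc0⟩⟩
  · intro z hz
    exact fβ.one_of_mem_closedBall (by rw [Metric.mem_closedBall, Real.dist_eq, sub_zero]; exact hz)
  · intro z hz
    by_contra hc
    exact hz (fβ.zero_of_le_dist (by rw [Real.dist_eq, sub_zero]; exact (not_le.1 hc).le))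
  · intro z hz
    by_contra hc
    exact hz (hc0 z (not_lt.1 hc))
  · intro y hy
    have h1 := abs_lt.1 (hx y hy)
    rw [abs_le]
    constructor <;> linarith [h1.1, h1.2]
  · refine ⟨1 / 2 - u / 8 - u / 32, 1 / 2 - u / 8 + u / 32, by linarith, by linarith, by linarith,
      fun y hy => ?_⟩
    rw [fx.one_of_mem_closedBall]
    rw [Metric.mem_closedBall, Real.dist_eq, abs_le]
    constructor
    · show -(u / 32) ≤ _; linarith [hy.1]
    · show _ ≤ u / 32; linarith [hy.2]
  · intro y hy
    have h1 := abs_lt.1 (hx y hy)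
    constructor <;> linarith [h1.1, h1.2]
  · exact (psi_smooth.continuous_deriv (by norm_num))
  · intro z hz
    exact fc.one_of_mem_closedBall (by rw [Metric.mem_closedBall, Real.dist_eq, sub_zero]; exact hz)

end Pool.Agent.Helper69.EK
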