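import Pool.Agent.Helper69.EK.Stm
import Pool.Graph.R_pool_sql_team_seeded_1e53cb71.Helper6K9.EH.StepA

set_option autoImplicit false

/-!
# Part STEPA: one cycle, assembly
-/

namespace Pool.Agent.Helper69.EK

open Set Filter Topology Pool.Agent.Helper6K9.ES
open Pool.Agent.Helper6K9.EH (Prof Fam eX eY dst pt Tr mkFam Pv Shf S_PROF S_FLOW)
open scoped ContDiff

namespace STEPAL

open Pool.Agent.Helper6K9.EH.StepL (cross)

theorem ctl_mono {e : Env} {F : Fam} {ε a b t₀ t₁ a' b' : ℝ} (h : Ctl e F ε a b t₀ t₁)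
    (ha : a ≤ a') (hb : b' ≤ b) : Ctl e F ε a' b' t₀ t₁ := by
  have hs : Icc a' b' ⊆ Icc a b := Icc_subset_Icc ha hb
  exact ⟨fun s hs' => h.dif s (hs hs'), fun s hs' => h.bd s (hs hs'),
    fun s h1 s' h2 => h.lip s (hs h1) s' (hs h2), fun t ht =>
    ⟨(h.cts t ht).1.mono hs, (h.cts t ht).2.1.mono hs, (h.cts t ht).2.2.1.mono hs,
      (h.cts t ht).2.2.2.mono hs⟩⟩

/-- the sequences are constant in the blocks -/
theorem ee_blk {i j : ℕ} (h : j / 3 = i) : ee j = ee (3 * i) := by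
  have h2 : 3 * i / 3 = i := by omega
  unfold ee MM
  rw [h, h2]

theorem dd_blk {i j : ℕ} (h : j / 3 = i) : dd j = dd (3 * i) := by
  have h2 : 3 * i / 3 = i := by omega
  unfold dd
  rw [h, h2]

theorem ad_blk (κ : ℕ) {i j : ℕ} (h : j / 3 = i) : aa κ j * dd j = aa κ (3 * i) * dd (3 * i) := by
  unfold aa
  rw [ee_blk h, dd_blk h]

/-- a number is good, or it is close to an integer -/
theorem good_or (x : ℝ) : (∃ n : ℤ, x - n ∈ Icc (5 / 96 : ℝ) (79 / 96)) ∨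
    ∃ n : ℤ, -(17 / 96 : ℝ) < x - n ∧ x - n < 5 / 96 := by
  have h1 := Int.floor_le x
  have h2 := Int.lt_floor_add_one x
  by_cases c1 : x - ⌊x⌋ < 5 / 96
  · right
    exact ⟨⌊x⌋, by linarith, c1⟩
  · push Not at c1
    by_cases c2 : x - ⌊x⌋ ≤ 79 / 96
    · left
      exact ⟨⌊x⌋, c1, c2⟩
    · right
      push Not at c2
      refine ⟨⌊x⌋ + 1, ?_⟩
      push_cast
      constructor <;> linarith

/-- choice of the tube according to the phase -/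
theorem phase (x θ : ℝ) : (∃ n : ℤ, x - n ∈ Icc (5 / 96 : ℝ) (79 / 96)) ∨
    (∃ n : ℤ, x - θ - 1 / 4 - n ∈ Icc (5 / 96 : ℝ) (79 / 96)) ∨
    ∃ n : ℤ, x - 2 * θ - n ∈ Icc (5 / 96 : ℝ) (79 / 96) := by
  rcases good_or x with h | ⟨n₀, a1, a2⟩
  · exact Or.inl h
  rcases good_or (x - θ - 1 / 4) with h | ⟨n₁, b1, b2⟩
  · exact Or.inr (Or.inl h)
  rcases good_or (x - 2 * θ) with h | ⟨n₂, c1, c2⟩
  · exact Or.inr (Or.inr h)
  exfalso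
  have h1 : ((n₀ - 2 * n₁ + n₂ : ℤ) : ℝ) < 1 := by push_cast; linarith
  have h2 : (0 : ℝ) < ((n₀ - 2 * n₁ + n₂ : ℤ) : ℝ) := by push_cast; linarith
  have h3 : (n₀ - 2 * n₁ + n₂ : ℤ) < 1 := by exact_mod_cast h1
  have h4 : (0 : ℤ) < n₀ - 2 * n₁ + n₂ := by exact_mod_cast h2
  omega

theorem tube0 (i : ℕ) : tau (3 * i) = 1 / ((i : ℝ) + 8) ∧ hf (3 * i) = 0 := by
  have h1 : 3 * i / 3 = i := by omega
  have h2 : 3 * i % 3 = 0 := by omega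
  unfold tau hf MM
  rw [h1, h2]
  constructor <;> simp

theorem tube1 (i : ℕ) : tau (3 * i + 1) =
    1 / ((i : ℝ) + 8) - 1 / (3 * ((i : ℝ) + 8) * ((i : ℝ) + 8 + 1)) ∧ hf (3 * i + 1) = 1 / 4 := by
  have h1 : (3 * i + 1) / 3 = i := by omega
  have h2 : (3 * i + 1) % 3 = 1 := by omega
  unfold tau hf MM
  rw [h1, h2]
  constructor <;> simp

theorem tube2 (i : ℕ) : tau (3 * i + 2) =
    1 / ((i : ℝ) + 8) - 2 / (3 * ((i : ℝ) + 8) * ((i : ℝ) + 8 + 1)) ∧ hf (3 * i + 2) = 0 := by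
  have h1 : (3 * i + 2) / 3 = i := by omega
  have h2 : (3 * i + 2) % 3 = 2 := by omega
  unfold tau hf MM
  rw [h1, h2]
  constructor <;> simp

theorem bz_aux {W l Y h S S' r : ℝ} (h1 : -S' ≤ W - l * (1 - Y)) (h2 : W - l * (1 - Y) ≤ S')
    (h3 : l * (1 - Y) ≤ l * (1 - h + S)) (h4 : -(l * S) ≤ l * (1 - Y)) (h5 : 0 < l * (1 - h))
    (h6 : 2 * l * (1 - h) + 2 * l * S + S' ≤ r) :
    -r ≤ W - l * (Y - 1) ∧ W - l * (Y - 1) ≤ r := by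
  constructor <;> linarith

theorem yb_aux {l Y R z r c : ℝ} (h1 : 2 * l * Y = R - z) (h2 : z ≤ c) (h3 : c ≤ r / 2)
    (h4 : r ≤ R) (h5 : 0 < r) : r ≤ Y * (8 * l) := by
  have h6 : Y * (8 * l) = 4 * (2 * l * Y) := by ring
  rw [h6, h1]
  linarith

theorem e6_aux {l x y z D Q : ℝ} (hl1 : l ≤ 4) (hz : 0 ≤ z) (hy : 0 ≤ y)
    (h1 : z + l / 4 * x + y ≤ D) (h2 : D ≤ Q) : l / 4 * (z + x + y) ≤ Q := by
  have a1 : l / 4 * z ≤ 1 * z := mul_le_mul_of_nonneg_right (by linarith) hz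
  have a2 : l / 4 * y ≤ 1 * y := mul_le_mul_of_nonneg_right (by linarith) hy
  have a3 : l / 4 * (z + x + y) = l / 4 * z + l / 4 * x + l / 4 * y := by ring
  rw [a3]
  linarith

/-- the new good path -/
theorem finish {e : Env} {j₀ : ℕ} (he : EnvOK e j₀) {H : ℝ → ℝ} (hH : Hom e H) {m : ℕ}
    {C₁ r₀ r₁ C₃ C₇ c₇ C₈ c₈ c₉ C V₀ ε : ℝ} {i n : ℕ}
    (hN : Num e H m C₁ r₀ r₁ C₃ C₇ c₇ C₈ c₈ c₉ V₀ ε i n) {j : ℕ} (hj : j / 3 = i)
    (hC7 : 1 ≤ C₇) (hm : 1 ≤ m)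
    {b : ℝ} {G : ℤ → Fam} (hshf : Shf b G) {N : ℤ} {P : ℝ → ℝ → ℝ → Prop} {a₂ b₂ : ℝ} {T₁ : ℕ}
    (hctl : Ctl e (G N) ε a₂ b₂ T₁ (T₁ + 2 * m))
    (hthr : Thr e H m j (G N) a₂ b₂ T₁ C₇)
    (hcone : ∀ s ∈ Icc a₂ b₂, ∀ s' ∈ Icc a₂ b₂,
        |ze e (G N) s (T₁ + 2 * m) - ze e (G N) s' (T₁ + 2 * m)| +
        e.l / 4 * |(G N).X s (T₁ + 2 * m) - (G N).X s' (T₁ + 2 * m)| +
        |(G N).J s (T₁ + 2 * m) - (G N).J s' (T₁ + 2 * m)| ≤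
        C₈ / ee j * |xi e (G N) s (T₁ + 2 * m) - xi e (G N) s' (T₁ + 2 * m)|)
    {A B R : ℝ} (hA : a₂ ≤ A) (hAB : A ≤ B) (hB : B ≤ b₂) (hR : 0 ≤ R)
    (hfA : (G N).w A (T₁ + 2 * m) + e.l * ((G N).Y A (T₁ + 2 * m) - 1) ≤ -R)
    (hfB : R ≤ (G N).w B (T₁ + 2 * m) + e.l * ((G N).Y B (T₁ + 2 * m) - 1)) :
    ∃ a₃ b₃ J' : ℝ, A ≤ a₃ ∧ a₃ ≤ b₃ ∧ b₃ ≤ B ∧
      (G N).w a₃ (T₁ + 2 * m) + e.l * ((G N).Y a₃ (T₁ + 2 * m) - 1) = -R ∧
      (G N).w b₃ (T₁ + 2 * m) + e.l * ((G N).Y b₃ (T₁ + 2 * m) - 1) = R ∧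
      (∃ s ∈ Icc a₃ b₃, (G N).J s (T₁ + 2 * m) = J') ∧
      (∀ s ∈ Icc a₃ b₃, J' ≤ (G N).J s (T₁ + 2 * m)) ∧
      ∀ i', i ≤ i' → R = C₁ * (C / ((2 : ℝ) ^ i' - 3)) → (2 : ℝ) ^ i' ≤ J' →
        J' < (2 : ℝ) ^ (i' + 1) → (∀ s ∈ Icc a₃ b₃, P ((2 : ℝ) ^ i' - 3) s (T₁ + 2 * m)) →
        Good e (G (N + 1)) P C C₁ r₀ (2 * C₈) i' a₃ b₃ (T₁ + 2 * m) J' := by
  have hl := he.hl
  set T₂ : ℝ := (T₁ : ℝ) + 2 * m with hT₂
  have hm' : (1 : ℝ) ≤ m := by exact_mod_cast hm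
  have hmem : T₂ ∈ Icc (T₁ : ℝ) T₂ := ⟨by rw [hT₂]; linarith, le_rfl⟩
  obtain ⟨c1, c2, c3, c4⟩ := hctl.cts T₂ hmem
  have hsub : Icc A B ⊆ Icc a₂ b₂ := Icc_subset_Icc hA hB
  have hcf : ContinuousOn (fun s => (G N).w s T₂ + e.l * ((G N).Y s T₂ - 1)) (Icc A B) :=
    (c4.mono hsub).add (continuousOn_const.mul ((c3.mono hsub).sub continuousOn_const))
  obtain ⟨a₃, b₃, h1, h2, h3, h4, h5, h6⟩ := cross hAB hcf (by linarith : -R ≤ R) hfA hfB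
  have hsub3 : Icc a₃ b₃ ⊆ Icc a₂ b₂ := Icc_subset_Icc (hA.trans h1) (h3.trans hB)
  obtain ⟨s₀, hs₀, hmin⟩ := isCompact_Icc.exists_isMinOn ⟨a₃, ⟨le_rfl, h2⟩⟩ (c2.mono hsub3)
  refine ⟨a₃, b₃, (G N).J s₀ T₂, h1, h2, h3, h4, h5, ⟨s₀, hs₀, rfl⟩, fun s hs => hmin hs, ?_⟩
  intro i' hi' hRi hlo hhi hP
  have hxi : ∀ s, xi e (G (N + 1)) s T₂ = (G N).w s T₂ + e.l * ((G N).Y s T₂ - 1) := by
    intro s
    unfold xi
    rw [(hshf N s T₂).2.1, (hshf N s T₂).2.2.2]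
  have hze : ∀ s, ze e (G (N + 1)) s T₂ = (G N).w s T₂ - e.l * ((G N).Y s T₂ - 1) := by
    intro s
    unfold ze
    rw [(hshf N s T₂).2.1, (hshf N s T₂).2.2.2]
  have hcast : ((T₁ + 2 * m : ℕ) : ℝ) = T₂ := by
    rw [hT₂]
    push_cast
    ring
  obtain ⟨k1, k2, k3⟩ := hN.n8 j hj
  obtain ⟨l1, l2, l3, l4, l5⟩ := hN.n5 j hj
  have hbz : ∀ s ∈ Icc a₂ b₂, |(G N).w s T₂ - e.l * ((G N).Y s T₂ - 1)| ≤ r₀ := by
    intro s hs
    obtain ⟨q1, q2⟩ := hthr.near s hs T₂ hmem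
    have e1 : T₂ - T₁ - m - tau j = m - tau j := by rw [hT₂]; ring
    rw [e1] at q1
    have q3 : H (m - 1) ≤ H (m - tau j) := hH.mon.monotone (by linarith)
    have q4 := (hH.mem (m - tau j)).2
    rw [abs_le] at q1
    have y1 : |(G N).Y s T₂ - 1| ≤ 1 / 8 := by
      rw [abs_le]
      constructor <;> linarith [q1.1, q1.2]
    have y2 : e.k ((G N).Y s T₂) = 1 - (G N).Y s T₂ := by
      have := he.prof.anti ((G N).Y s T₂ - 1)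
      rw [sub_add_cancel, he.prof.lin _ y1] at this
      rw [this]
      ring
    rw [y2, abs_le] at q2
    rw [abs_le]
    have q5 : e.l * (1 - (G N).Y s T₂) ≤ e.l * (1 - H (m - 1) + C₇ * ss (e.l * e.c) j) :=
      mul_le_mul_of_nonneg_left (by linarith [q1.1]) hl.le
    have q6 : -(e.l * (C₇ * ss (e.l * e.c) j)) ≤ e.l * (1 - (G N).Y s T₂) := by
      have : e.l * (-(C₇ * ss (e.l * e.c) j)) ≤ e.l * (1 - (G N).Y s T₂) :=
        mul_le_mul_of_nonneg_left (by linarith [q1.2]) hl.le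
      linarith
    have q7 : 0 < e.l * (1 - H (m - 1)) := mul_pos hl (by linarith [(hH.mem (m - 1)).2])
    exact bz_aux q2.1 q2.2 q5 q6 q7 k3
  constructor
  · rw [hcast]
    refine ⟨h2, ?_, ?_, ?_, ?_, ?_⟩
    · rw [hxi, ← hRi]
      exact h4
    · rw [hxi, ← hRi]
      exact h5
    · intro s hs
      rw [hxi, ← hRi, abs_le]
      exact h6 s hs
    · intro s hs
      rw [hze]
      exact hbz s (hsub3 hs)
    · intro s hs s' hs'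
      have h7 := hcone s (hsub3 hs) s' (hsub3 hs')
      have d1 : ze e (G (N + 1)) s T₂ - ze e (G (N + 1)) s' T₂ =
          ze e (G N) s T₂ - ze e (G N) s' T₂ := by
        rw [hze, hze]
        unfold ze
        ring
      have d2 : xi e (G (N + 1)) s T₂ - xi e (G (N + 1)) s' T₂ =
          xi e (G N) s T₂ - xi e (G N) s' T₂ := by
        rw [hxi, hxi]
        unfold xi
        ring
      have d3 : (G (N + 1)).X s T₂ - (G (N + 1)).X s' T₂ = (G N).X s T₂ - (G N).X s' T₂ := by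
        rw [(hshf N s T₂).1, (hshf N s' T₂).1]
        ring
      rw [d1, d2, d3, (hshf N s T₂).2.2.1, (hshf N s' T₂).2.2.1]
      exact h7.trans (mul_le_mul_of_nonneg_right (hN.n9 j hj i' hi') (abs_nonneg _))
  · refine ⟨s₀, hs₀, ?_⟩
    rw [hcast, (hshf N s₀ T₂).2.2.1]
  · intro s hs
    rw [hcast, (hshf N s T₂).2.2.1]
    exact hmin hs
  · exact hlo
  · exact hhi
  · intro s hs
    rw [hcast]
    exact hP s hs

theorem core {e : Env} {j₀ : ℕ} (he : EnvOK e j₀) {H : ℝ → ℝ} (hH : Hom e H) {m : ℕ}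
    {C₁ r₀ r₁ C₃ C₇ c₇ C₈ c₈ c₉ C V₀ ε : ℝ} {i n : ℕ} {R : ℝ}
    (hN : Num e H m C₁ r₀ r₁ C₃ C₇ c₇ C₈ c₈ c₉ V₀ ε i n) (hC : 1 ≤ C)
    (hεi : C / ((2 : ℝ) ^ i - 3) = ε)
    (hC1 : 1 ≤ C₁) (hC3 : 1 ≤ C₃) (hC7 : 1 ≤ C₇) (hC8 : 1 ≤ C₈) (hm : 1 ≤ m)
    (hr1 : 0 < r₁) (hR1 : r₁ ≤ R)
    (hmB : H (-m + 1) < r₁ / (8 * e.l))
    (hW : ∀ (F : Fam) (P : ℝ → ℝ → ℝ → Prop) (C V₀ k₂ V a b T K : ℝ), C / V = ε → V₀ ≤ V →
      1 ≤ k₂ → 0 ≤ T → AE e F P C V₀ k₂ a b → Box e F a b T (C₁ * ε) r₀ K → 0 ≤ K →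
      K * ε ≤ 1 / 2 * ε + 2 * C₈ / ee (3 * i) * ε →
      (∀ s ∈ Icc a b, P V s T ∧ V + 2 ≤ F.J s T) →
      ∃ a' b' : ℝ, a ≤ a' ∧ b' ≤ b ∧ Box e F a' b' (T + n) R (C₃ * ε) (C₃ * (√ε * K + ε)) ∧
        ∀ s ∈ Icc a' b', |F.X s (T + n) - F.X s T - n * F.J s T| ≤ C₃ * n * ε ∧
          ∀ t ∈ Icc T (T + n), |F.J s t - F.J s T| ≤ C₃ * n * ε ^ (e.κ + 3) ∧ P V s t)
    (hLA : ∀ j, j / 3 = i → ∀ (F : Fam) (a b : ℝ) (T : ℕ),
      Ent e H m j F a b T ε C₃ → Thr e H m j F a b T C₇ ∧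
      F.w a (T + 2 * m) + e.l * (F.Y a (T + 2 * m) - 1) ≤ -(c₇ * (ee j * ss (e.l * e.c) j)) ∧
      c₇ * (ee j * ss (e.l * e.c) j) ≤ F.w b (T + 2 * m) + e.l * (F.Y b (T + 2 * m) - 1))
    (hLB : ∀ j, j / 3 = i → ∀ (F : Fam) (a b : ℝ) (T : ℕ) (K₁ : ℝ),
      Ent e H m j F a b T ε C₃ → Thr e H m j F a b T C₇ →
      0 ≤ K₁ → K₁ ≤ c₈ * ee j →
      (∀ s ∈ Icc a b, ∀ s' ∈ Icc a b, |ze e F s T - ze e F s' T| + |F.X s T - F.X s' T| +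
        |F.J s T - F.J s' T| ≤ K₁ * |F.Y s T - F.Y s' T|) →
      ∀ s ∈ Icc a b, ∀ s' ∈ Icc a b,
        |ze e F s (T + 2 * m) - ze e F s' (T + 2 * m)| +
        e.l / 4 * |F.X s (T + 2 * m) - F.X s' (T + 2 * m)| +
        |F.J s (T + 2 * m) - F.J s' (T + 2 * m)| ≤
        C₈ / ee j * |xi e F s (T + 2 * m) - xi e F s' (T + 2 * m)|)
    (hLC : ∀ j, j / 3 = i → ∀ (F : Fam) (a b : ℝ) (T : ℕ),
      Ent e H m j F a b T ε C₃ → Thr e H m j F a b T C₇ →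
      (∀ s ∈ Icc a b, |F.J s T| ≤ 2 * 2 ^ (j / 3) + 3 ∧ ∃ n : ℤ,
        F.X s T + F.J s T * (m + tau j) - hf j - n ∈ Icc (1 / 24 : ℝ) (7 / 8 - 1 / 24)) →
      ∀ s ∈ Icc a b, F.J s T + c₉ * (aa e.κ j * dd j) ≤ F.J s (T + 2 * m) ∧
        ∀ t ∈ Icc (T : ℝ) (T + 2 * m), |F.J s t - F.J s T| ≤ 1 ∧ |F.w s t| ≤ 1)
    {b : ℝ} {G : ℤ → Fam} {P : ℝ → ℝ → ℝ → Prop} {a c : ℝ} {T : ℕ} {N : ℤ} {J : ℝ}
    (hshf : Shf b G) (hAE : ∀ N, AE e (G N) P C V₀ (2 * m) a c)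
    (hg : Good e (G N) P C C₁ r₀ (2 * C₈) i a c T J) :
    ∃ (a' c' : ℝ) (T' i' : ℕ) (J' : ℝ), a ≤ a' ∧ c' ≤ c ∧ T < T' ∧ i ≤ i' ∧
      J + c₉ / 2 * (aa e.κ (3 * i) * dd (3 * i)) ≤ J' ∧
      Good e (G (N + 1)) P C C₁ r₀ (2 * C₈) i' a' c' T' J' ∧
      ∀ s ∈ Icc a' c', ∀ t ∈ Icc (T : ℝ) T', P ((2 : ℝ) ^ i - 3) s t := by
  have hl := he.hl
  have hm' : (1 : ℝ) ≤ m := by exact_mod_cast hm
  have hε := hN.eps
  have h2i : (16 : ℝ) ≤ (2 : ℝ) ^ i := by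
    have h := pow_le_pow_right₀ (by norm_num : (1 : ℝ) ≤ 2) hN.i4
    norm_num at h
    exact h
  have h2i1 : (2 : ℝ) ^ (i + 1) = 2 * (2 : ℝ) ^ i := by ring
  have hii : (2 : ℝ) ^ i - 3 ≤ (2 : ℝ) ^ (i + 1) - 3 := by linarith
  have hii2 : (2 : ℝ) ^ (i + 1) + 2 ≤ (2 : ℝ) ^ (i + 1 + 1) := by
    have : (2 : ℝ) ^ (i + 1 + 1) = 4 * (2 : ℝ) ^ i := by ring
    linarith
  set F := G N with hF
  set V : ℝ := (2 : ℝ) ^ i - 3 with hV
  have hV0 : 0 < V := by rw [hV]; linarith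
  set K₀ : ℝ := 2 * C₈ / ee (3 * i) with hK₀
  have hee : 0 < ee (3 * i) := (hN.n5 _ (by omega)).2.2.2.2
  have hK₀p : 0 ≤ K₀ := by positivity
  set D : ℝ := K₀ * (2 * (C₁ * ε)) with hD
  have hD0 : 0 ≤ D := by positivity
  -- the old path
  have hbox : Box e F a c T (C₁ * ε) r₀ K₀ := by
    have := hg.box
    rw [hεi] at this
    exact this
  have hac := hbox.le
  have haI : a ∈ Icc a c := ⟨le_rfl, hac⟩
  have hcone : ∀ s ∈ Icc a c, |F.X s T - F.X a T| ≤ 4 / e.l * D ∧ |F.J s T - F.J a T| ≤ D := by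
    intro s hs
    have h1 := hbox.cone s hs a haI
    have h2 : |xi e F s T - xi e F a T| ≤ 2 * (C₁ * ε) := by
      have h3 := abs_le.1 (hbox.bx s hs)
      have h4 := abs_le.1 (hbox.bx a haI)
      rw [abs_le]
      constructor <;> linarith
    have h3 : K₀ * |xi e F s T - xi e F a T| ≤ D := mul_le_mul_of_nonneg_left h2 hK₀p
    have h4 : 0 ≤ |ze e F s T - ze e F a T| := abs_nonneg _
    have h5 : 0 ≤ |F.J s T - F.J a T| := abs_nonneg _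
    have h6 : 0 ≤ e.l / 4 * |F.X s T - F.X a T| := by positivity
    refine ⟨?_, by linarith⟩
    have h7 : e.l / 4 * |F.X s T - F.X a T| ≤ D := by linarith
    have h8 : |F.X s T - F.X a T| = 4 / e.l * (e.l / 4 * |F.X s T - F.X a T|) := by
      field_simp
    rw [h8]
    exact mul_le_mul_of_nonneg_left h7 (by positivity)
  have hJlo : ∀ s ∈ Icc a c, J ≤ F.J s T := hg.jm
  have hJhi : ∀ s ∈ Icc a c, F.J s T ≤ J + 2 * D := by
    intro s hs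
    obtain ⟨s₁, hs₁, h1⟩ := hg.ja
    have h2 := (abs_le.1 (hcone s hs).2).2
    have h3 := (abs_le.1 (hcone s₁ hs₁).2).1
    linarith
  have hD4 : D ≤ 1 / 4 := hN.n2
  have hlo := hg.lo
  have hhi := hg.hi
  -- waiting
  obtain ⟨a₁, b₁, ha₁, hb₁, hbox₁, hw₁⟩ := hW F P C V₀ (2 * m) V a c T K₀ hεi hN.hV (by linarith)
    (Nat.cast_nonneg _) (hAE N) hbox hK₀p (le_add_of_nonneg_left (by positivity)) (fun s hs =>
      ⟨hg.vel s hs, by have := hJlo s hs; rw [hV]; linarith⟩)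
  have hle₁ := hbox₁.le
  set T₁ : ℕ := T + n with hT₁
  have hT₁c : (T₁ : ℝ) = T + n := by rw [hT₁]; push_cast; ring
  have hn0 : (0 : ℝ) ≤ n := Nat.cast_nonneg _
  have hT1m : (T₁ : ℝ) ∈ Icc (T : ℝ) (T + n) := ⟨by rw [hT₁c]; linarith, hT₁c.le⟩
  rw [← hT₁c] at hbox₁ hw₁
  have hsub₁ : Icc a₁ b₁ ⊆ Icc a c := Icc_subset_Icc ha₁ hb₁
  have hT1m' : (T₁ : ℝ) ∈ Icc (T : ℝ) T₁ := ⟨hT1m.1, le_rfl⟩
  have hAE₁ := hAE N V T₁ a₁ b₁ hN.hV (Nat.cast_nonneg _) ha₁ hle₁ hb₁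
    (fun s hs => ((hw₁ s hs).2 _ hT1m').2)
  rw [hεi] at hAE₁
  obtain ⟨hctl₁, hpers⟩ := hAE₁
  -- drift of J
  set dJ : ℝ := C₃ * n * ε ^ (e.κ + 3) with hdJ
  have hdJ0 : 0 ≤ dJ := by positivity
  have hdJ4 : dJ ≤ 1 / 4 := hN.n0
  have hJ₁ : ∀ s ∈ Icc a₁ b₁, |F.J s T₁ - F.J s T| ≤ dJ := fun s hs =>
    ((hw₁ s hs).2 _ hT1m').1
  -- the choice of j
  have hKn : C₃ * (√ε * K₀ + ε) ≤ 1 / 2 := hN.n3
  set Kn : ℝ := C₃ * (√ε * K₀ + ε) with hKnd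
  have hKn0 : 0 ≤ Kn := by positivity
  set xa := F.X a T with hxa
  set Ja := F.J a T with hJa
  have hJa1 : (2 : ℝ) ^ i ≤ Ja := hlo.trans (hJlo a haI)
  obtain ⟨j, hj, hjph⟩ : ∃ j, j / 3 = i ∧ ∃ n' : ℤ,
      xa + n * Ja + Ja * (m + tau j) - hf j - n' ∈ Icc (5 / 96 : ℝ) (79 / 96) := by
    set θ : ℝ := Ja * (1 / (3 * ((i : ℝ) + 8) * ((i : ℝ) + 8 + 1))) with hθ
    rcases phase (xa + n * Ja + Ja * (m + 1 / ((i : ℝ) + 8))) θ with ⟨n', h⟩ | ⟨n', h⟩ | ⟨n', h⟩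
    · refine ⟨3 * i, by omega, n', ?_⟩
      rw [(tube0 i).1, (tube0 i).2, sub_zero]
      exact h
    · refine ⟨3 * i + 1, by omega, n', ?_⟩
      rw [(tube1 i).1, (tube1 i).2]
      convert h using 1
      rw [hθ]
      ring
    · refine ⟨3 * i + 2, by omega, n', ?_⟩
      rw [(tube2 i).1, (tube2 i).2]
      convert h using 1
      rw [hθ]
      ring
  obtain ⟨p1, p2, p3, p4, p5⟩ := hN.n5 j hj
  have hu : 0 < e.l * e.c := mul_pos hl he.prof.cpos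
  -- restriction of the positions
  have hT1mem : (T₁ : ℝ) ∈ Icc (T₁ : ℝ) (T₁ + 2 * m) := ⟨le_rfl, by linarith⟩
  have hYc : ContinuousOn (fun s => F.Y s T₁) (Icc a₁ b₁) := (hctl₁.cts T₁ hT1mem).2.2.1
  have hp0 : 0 < ss (e.l * e.c) j / (2 * (e.l * e.c)) := by positivity
  have hq1 : H (-m - tau j + ss (e.l * e.c) j / (2 * (e.l * e.c))) < r₁ / (8 * e.l) :=
    lt_of_le_of_lt (hH.mon.monotone (by linarith)) hmB
  have hYeq : ∀ s t, 2 * e.l * F.Y s t = xi e F s t - ze e F s t := by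
    intro s t
    unfold xi ze
    ring
  have hn4 := hN.n4
  have hYa : F.Y a₁ T₁ ≤ H (-m - tau j - ss (e.l * e.c) j / (2 * (e.l * e.c))) := by
    refine le_trans ?_ (hH.mem _).1.le
    have h1 := hYeq a₁ T₁
    rw [hbox₁.left] at h1
    have h2 := (abs_le.1 (hbox₁.bz a₁ ⟨le_rfl, hle₁⟩)).1
    by_contra h3
    push Not at h3
    have : 0 < 2 * e.l * F.Y a₁ T₁ := by positivity
    linarith
  have hYb : H (-m - tau j + ss (e.l * e.c) j / (2 * (e.l * e.c))) ≤ F.Y b₁ T₁ := by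
    refine hq1.le.trans ?_
    have h1 := hYeq b₁ T₁
    rw [hbox₁.right] at h1
    have h2 := (abs_le.1 (hbox₁.bz b₁ ⟨hle₁, le_rfl⟩)).2
    rw [div_le_iff₀ (by positivity)]
    exact yb_aux h1 h2 hn4 hR1 hr1
  obtain ⟨a₂, b₂, h1, h2, h3, h4, h5, h6⟩ := cross hle₁ hYc
    (hH.mon.monotone (by linarith)) hYa hYb
  have hsub₂ : Icc a₂ b₂ ⊆ Icc a₁ b₁ := Icc_subset_Icc h1 h3
  have hctl₂ : Ctl e F ε a₂ b₂ T₁ (T₁ + 2 * m) := ctl_mono hctl₁ h1 h3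
  have hEnt : Ent e H m j F a₂ b₂ T₁ ε C₃ :=
    ⟨h2, hctl₂, h4, h5, fun s hs => ⟨(show F.Y a₂ T₁ = _ from h4).le.trans (h6 s hs).1,
      (h6 s hs).2.trans (show F.Y b₂ T₁ = _ from h5).ge⟩, fun s hs => hbox₁.bz s (hsub₂ hs)⟩
  obtain ⟨hThr, hendA, hendB⟩ := hLA j hj F a₂ b₂ T₁ hEnt
  -- the cone
  have hcone₂ := hLB j hj F a₂ b₂ T₁ (16 * Kn) hEnt hThr (by positivity) (hN.n3' j hj) (by
    intro s hs s' hs'
    have h7 := hbox₁.cone s (hsub₂ hs) s' (hsub₂ hs')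
    have e1 : xi e F s T₁ - xi e F s' T₁ =
        2 * e.l * (F.Y s T₁ - F.Y s' T₁) + (ze e F s T₁ - ze e F s' T₁) := by
      unfold xi ze
      ring
    have e2 : |xi e F s T₁ - xi e F s' T₁| ≤ 2 * e.l * |F.Y s T₁ - F.Y s' T₁| +
        |ze e F s T₁ - ze e F s' T₁| := by
      rw [e1]
      refine (abs_add_le _ _).trans ?_
      rw [abs_mul, abs_of_pos (by positivity : (0 : ℝ) < 2 * e.l)]
    set dx := |F.X s T₁ - F.X s' T₁| with hdx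
    set dj := |F.J s T₁ - F.J s' T₁| with hdj
    set dz := |ze e F s T₁ - ze e F s' T₁| with hdz
    set dy := |F.Y s T₁ - F.Y s' T₁| with hdy
    set dxi := |xi e F s T₁ - xi e F s' T₁| with hdxi
    have n1 : 0 ≤ dx := abs_nonneg _
    have n2 : 0 ≤ dj := abs_nonneg _
    have n3 : 0 ≤ dz := abs_nonneg _
    have n4 : 0 ≤ dy := abs_nonneg _
    have n5 : 0 ≤ dxi := abs_nonneg _
    have n6 : 0 ≤ e.l / 4 * dx := by positivity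
    have e3 : dz ≤ 1 / 2 * dxi := by
      have : Kn * dxi ≤ 1 / 2 * dxi := mul_le_mul_of_nonneg_right hKn n5
      linarith
    have e4 : dxi ≤ 4 * e.l * dy := by linarith
    have e5 : Kn * dxi ≤ Kn * (4 * e.l * dy) := mul_le_mul_of_nonneg_left e4 hKn0
    have hl1 := he.hl1
    have e6 : e.l / 4 * (dz + dx + dj) ≤ Kn * (4 * e.l * dy) :=
      e6_aux (by linarith only [hl1]) n3 n2 h7 e5
    have e7 : dz + dx + dj = 4 / e.l * (e.l / 4 * (dz + dx + dj)) := by field_simp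
    rw [e7]
    refine (mul_le_mul_of_nonneg_left e6 (by positivity)).trans (le_of_eq ?_)
    field_simp
    ring)
  -- the kick
  have hkick := hLC j hj F a₂ b₂ T₁ hEnt hThr (by
    intro s hs
    have hs1 := hsub₂ hs
    have hs0 := hsub₁ hs1
    have k1 := abs_le.1 (hJ₁ s hs1)
    have k2 := abs_le.1 (hcone s hs0).2
    have k3 := abs_le.1 (hcone s hs0).1
    have k4 := abs_le.1 (hw₁ s hs1).1
    refine ⟨?_, ?_⟩
    · rw [hj, abs_le]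
      have := hJhi s hs0
      have := hJlo s hs0
      constructor <;> linarith [k1.1, k1.2]
    · obtain ⟨n', hn'⟩ := hjph
      refine ⟨n', ?_⟩
      have e1 : F.X s T₁ + F.J s T₁ * (m + tau j) - hf j - n' =
          (xa + n * Ja + Ja * (m + tau j) - hf j - n') +
          ((F.X s T₁ - F.X s T - n * F.J s T) + (F.X s T - xa) + n * (F.J s T - Ja) +
          ((F.J s T₁ - F.J s T) + (F.J s T - Ja)) * (m + tau j)) := by ring
      have e2 : |(F.X s T₁ - F.X s T - n * F.J s T) + (F.X s T - xa) + n * (F.J s T - Ja) +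
          ((F.J s T₁ - F.J s T) + (F.J s T - Ja)) * (m + tau j)| ≤ 1 / 96 := by
        refine le_trans ?_ hN.n6
        have q1 : |n * (F.J s T - Ja)| ≤ n * D := by
          rw [abs_mul, abs_of_nonneg hn0]
          exact mul_le_mul_of_nonneg_left (hcone s hs0).2 hn0
        have q2 : |((F.J s T₁ - F.J s T) + (F.J s T - Ja)) * (m + tau j)| ≤
            (m + 1) * (D + dJ) := by
          rw [abs_mul, abs_of_nonneg (by positivity : (0 : ℝ) ≤ m + tau j), mul_comm]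
          refine mul_le_mul (by linarith) ?_ (abs_nonneg _) (by positivity)
          refine (abs_add_le _ _).trans ?_
          linarith [(hcone s hs0).2, hJ₁ s hs1]
        refine (abs_add_le _ _).trans ?_
        refine (add_le_add ((abs_add_le _ _).trans (add_le_add ((abs_add_le _ _).trans
          (add_le_add (hw₁ s hs1).1 (hcone s hs0).1)) q1)) q2).trans (le_of_eq ?_)
        ring
      rw [e1]
      rw [abs_le] at e2
      constructor <;> linarith [hn'.1, hn'.2, e2.1, e2.2])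
  -- the new path
  set T₂ : ℝ := (T₁ : ℝ) + 2 * m with hT₂
  have hT2c : ((T₁ + 2 * m : ℕ) : ℝ) = T₂ := by rw [hT₂]; push_cast; ring
  have hT2mem : T₂ ∈ Icc (T₁ : ℝ) T₂ := ⟨by rw [hT₂]; linarith, le_rfl⟩
  have hgain : ∀ s ∈ Icc a₂ b₂, J + c₉ / 2 * (aa e.κ j * dd j) ≤ F.J s T₂ ∧ F.J s T₂ ≤ J + 2 := by
    intro s hs
    have hs1 := hsub₂ hs
    have hs0 := hsub₁ hs1
    have k0 := hkick s hs
    have k1 := abs_le.1 (hJ₁ s hs1)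
    have k2 := hJlo s hs0
    have k3 := hJhi s hs0
    have k4 := abs_le.1 (k0.2 T₂ hT2mem).1
    have k5 : dJ ≤ c₉ / 2 * (aa e.κ j * dd j) := hN.n1 j hj
    constructor
    · linarith [k0.1, k1.1]
    · linarith [k4.2, k1.2]
  have hP2 : ∀ s ∈ Icc a₂ b₂, ∀ t ∈ Icc (T₁ : ℝ) T₂, ∀ V', V₀ ≤ V' → V' + 1 ≤ F.J s t → P V' s t :=
    fun s hs t ht V' hV' hJ' => hpers s (hsub₂ hs) t ht V' hV' hJ' ((hkick s hs).2 t ht).2
  have hallP : ∀ s ∈ Icc a₂ b₂, ∀ t ∈ Icc (T : ℝ) ((T₁ + 2 * m : ℕ) : ℝ),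
      P ((2 : ℝ) ^ i - 3) s t := by
    intro s hs t ht
    rw [hT2c] at ht
    by_cases hc : t ≤ T₁
    · exact ((hw₁ s (hsub₂ hs)).2 t ⟨ht.1, hc⟩).2
    · push Not at hc
      refine hP2 s hs t ⟨hc.le, ht.2⟩ _ hN.hV ?_
      have k1 := abs_le.1 ((hkick s hs).2 t ⟨hc.le, ht.2⟩).1
      have k2 := abs_le.1 (hJ₁ s (hsub₂ hs))
      have k3 := hJlo s (hsub₁ (hsub₂ hs))
      linarith [k1.1, k2.1]
  have hR' : ∀ i' : ℕ, i ≤ i' → 0 ≤ C₁ * (C / ((2 : ℝ) ^ i' - 3)) ∧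
      C₁ * (C / ((2 : ℝ) ^ i' - 3)) ≤ C₁ * ε := by
    intro i' hi'
    have h7 : (2 : ℝ) ^ i ≤ (2 : ℝ) ^ i' := pow_le_pow_right₀ (by norm_num) hi'
    have h8 : 0 < (2 : ℝ) ^ i' - 3 := by linarith
    refine ⟨by positivity, ?_⟩
    rw [← hεi]
    refine mul_le_mul_of_nonneg_left ?_ (by linarith)
    refine div_le_div_of_nonneg_left (by linarith) hV0 ?_
    linarith
  obtain ⟨a₃, b₃, J₃, u1, u2, u3, u4, u5, ⟨s₃, hs₃, u6⟩, u7, u8⟩ :=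
    finish (C := C) he hH hN hj hC7 hm hshf (P := P) hctl₂ hThr hcone₂ le_rfl h2 le_rfl
      (hR' i le_rfl).1 (hendA.trans (neg_le_neg ((hR' i le_rfl).2.trans (hN.n7 j hj))))
      (((hR' i le_rfl).2.trans (hN.n7 j hj)).trans hendB)
  have hsub₃ : Icc a₃ b₃ ⊆ Icc a₂ b₂ := Icc_subset_Icc u1 u3
  rw [ad_blk e.κ hj] at hgain
  have hTlt : T < T₁ + 2 * m := by omega
  have hJ₃ := hgain s₃ (hsub₃ hs₃)
  have u6' : F.J s₃ T₂ = J₃ := u6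
  rw [u6'] at hJ₃
  by_cases hcase : J₃ < (2 : ℝ) ^ (i + 1)
  · refine ⟨a₃, b₃, T₁ + 2 * m, i, J₃, (ha₁.trans h1).trans u1, (u3.trans h3).trans hb₁, hTlt, le_rfl,
      by linarith [hJ₃.1], ?_, fun s hs => hallP s (hsub₃ hs)⟩
    refine u8 i le_rfl rfl ?_ hcase ?_
    · have h9 : 0 ≤ c₉ / 2 * (aa e.κ (3 * i) * dd (3 * i)) := (hN.n11 _ (by omega)).le
      linarith [hJ₃.1]
    · intro s hs
      exact hallP s (hsub₃ hs) T₂ ⟨by rw [hT₂, hT₁c]; linarith, hT2c.ge⟩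
  · push Not at hcase
    obtain ⟨a₄, b₄, J₄, v1, v2, v3, v4, v5, ⟨s₄, hs₄, v6⟩, v7, v8⟩ :=
      finish (C := C) he hH hN hj hC7 hm hshf (P := P) hctl₂ hThr hcone₂ u1 u2 u3
        (hR' (i + 1) (by omega)).1 (by
          refine u4.le.trans (neg_le_neg ?_)
          refine mul_le_mul_of_nonneg_left ?_ (by linarith)
          refine div_le_div_of_nonneg_left (by linarith) hV0 ?_
          exact hii) (by
          refine le_trans ?_ u5.ge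
          refine mul_le_mul_of_nonneg_left ?_ (by linarith)
          refine div_le_div_of_nonneg_left (by linarith) hV0 ?_
          exact hii)
    have hsub₄ : Icc a₄ b₄ ⊆ Icc a₃ b₃ := Icc_subset_Icc v1 v3
    have v6' : F.J s₄ T₂ = J₄ := v6
    have hJ₄ := hgain s₄ (hsub₃ (hsub₄ hs₄))
    have hJ₃₄ : J₃ ≤ J₄ := by rw [← v6']; exact u7 s₄ (hsub₄ hs₄)
    rw [v6'] at hJ₄
    have hlo4 : (2 : ℝ) ^ (i + 1) ≤ J₄ := by linarith
    refine ⟨a₄, b₄, T₁ + 2 * m, i + 1, J₄, ((ha₁.trans h1).trans u1).trans v1,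
      ((v3.trans u3).trans h3).trans hb₁, hTlt, by omega,
      by linarith [hJ₄.1], ?_, fun s hs => hallP s (hsub₃ (hsub₄ hs))⟩
    refine v8 (i + 1) (by omega) rfl hlo4 ?_ ?_
    · linarith [hJ₄.2]
    · intro s hs
      have hs2 := hsub₃ (hsub₄ hs)
      refine hP2 s hs2 T₂ hT2mem _ ?_ ?_
      · exact hN.hV.trans hii
      · have := v7 s hs
        have v7' : J₄ ≤ F.J s T₂ := this
        linarith

end STEPAL

open STEPAL in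
/-- **Part STEPA.** -/
theorem stepa : S_STEPA := by
  intro num wait la lb lc e j₀ H he hH
  obtain ⟨r₀, r₁, C₁, C₃, ε₀, hr1, hr10, hr0, hr0l, hC1, hC3, hε0, hW⟩ := wait e j₀ he
  have hl := he.hl
  have hr0' : 0 < r₀ := hr1.trans_le hr10
  obtain ⟨m, hm1, hmA, hmB, hmC, hmD⟩ : ∃ m : ℕ, 1 ≤ m ∧ H (-m + 1) < 1 / 8 ∧
      H (-m + 1) < r₁ / (8 * e.l) ∧ 7 / 8 < H (m - 1) ∧ 1 - r₀ / (4 * e.l) < H (m - 1) := by
    have t1 : Tendsto (fun m : ℕ => H (-(m : ℝ) + 1)) atTop (𝓝 0) := by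
      refine hH.bot.comp ?_
      refine tendsto_atBot_add_const_right _ _ ?_
      exact tendsto_neg_atTop_atBot.comp tendsto_natCast_atTop_atTop
    have t2 : Tendsto (fun m : ℕ => H ((m : ℝ) - 1)) atTop (𝓝 1) := by
      refine hH.top.comp ?_
      exact tendsto_atTop_add_const_right _ _ tendsto_natCast_atTop_atTop
    have e1 := t1.eventually (gt_mem_nhds (by norm_num : (0 : ℝ) < 1 / 8))
    have e2 := t1.eventually (gt_mem_nhds (by positivity : (0 : ℝ) < r₁ / (8 * e.l)))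
    have e3 := t2.eventually (lt_mem_nhds (by norm_num : (7 / 8 : ℝ) < 1))
    have e4 := t2.eventually (lt_mem_nhds (by
      have : 0 < r₀ / (4 * e.l) := by positivity
      linarith : 1 - r₀ / (4 * e.l) < 1))
    obtain ⟨m, h1, h2, h3, h4, h5⟩ := (e1.and (e2.and (e3.and (e4.and
      (eventually_ge_atTop 1))))).exists
    exact ⟨m, h5, h1, h2, h3, h4⟩
  obtain ⟨C₈, c₈, hC8, hc8, hLB⟩ := lb e j₀ H he hH m hmA hmC
  refine ⟨m, C₁, r₀, 2 * C₈, hm1, hC1, hr0', hr0, by linarith, ?_⟩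
  intro C V₀ hC hV₀
  obtain ⟨jA, C₇, c₇, hjA, hC7, hc7, hLA⟩ := la e j₀ H he hH m C₃ (8 * C) hC3 (by linarith) hmA hmC
  obtain ⟨jB, hjB, hLB'⟩ := hLB C₃ (8 * C) C₇ hC3 (by linarith) hC7
  obtain ⟨jC, c₉, hjC, hc9, hLC⟩ := lc e j₀ H he hH m C₃ (8 * C) C₇ hC3 (by linarith) hC7 hmA hmC
  have hnum := num e j₀ H he hH m C₁ r₀ r₁ C₃ C₇ c₇ C₈ c₈ c₉ V₀ C ε₀ hC hC1 hC3 hC7 hC8 hc7 hc8 hc9
    hr0' hr1 hε0 hmC hmD
  obtain ⟨i₁, hi₁⟩ := eventually_atTop.1 (hnum.and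
    (eventually_ge_atTop (max 4 (max jA (max jB jC)))))
  refine ⟨max i₁ 2, le_max_right _ _, fun i hi => ?_⟩
  obtain ⟨⟨hn, h1, hKε, hq⟩, h3⟩ := hi₁ i ((le_max_left _ _).trans hi)
  have hi4 : 4 ≤ i := (le_max_left _ _).trans h3
  have hij : max jA (max jB jC) ≤ i := (le_max_right _ _).trans h3
  have hiA : jA ≤ i := (le_max_left _ _).trans hij
  have hiB : jB ≤ i := (le_max_left _ _).trans ((le_max_right _ _).trans hij)
  have hiC : jC ≤ i := (le_max_right _ _).trans ((le_max_right _ _).trans hij)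
  have p0 : 0 < C / ((2 : ℝ) ^ i - 3) := by
    have h := pow_le_pow_right₀ (by norm_num : (1 : ℝ) ≤ 2) hi4
    norm_num at h
    have h' : 0 < (2 : ℝ) ^ i - 3 := by linarith
    positivity
  set ε := C / ((2 : ℝ) ^ i - 3) with hε
  obtain ⟨n, R, hR1, hR2, hnl, hW'⟩ := hW ε p0 h1
  have hN := hn n hnl
  refine ⟨c₉ / 2 * (aa e.κ (3 * i) * dd (3 * i)), hN.n11 _ (by omega), ?_⟩
  intro b G P a c T N J hshf hAE hg
  refine core he hH hN hC rfl hC1 hC3 hC7 hC8 hm1 hr1 hR1 hmB ?_ ?_ ?_ ?_ hshf hAE hg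
  · intro F P C V₀ k₂ V a b T K q1 q2 q3 q4 q5 q6 q7 q8 q9
    exact hW' F P C V₀ k₂ V a b T K q1 q2 q3 q4 q5 q6 q7 (q8.trans hKε) q9
  · intro j hj F a b T hE
    have hji : i ≤ j := by omega
    exact hLA j F a b T ε (hiA.trans hji) p0 (hq j hj) hE
  · intro j hj F a b T K₁ hE hT k1 k2 k3
    have hji : i ≤ j := by omega
    exact hLB' j F a b T ε K₁ (hiB.trans hji) p0 (hq j hj) hE hT k1 k2 k3
  · intro j hj F a b T hE hT k3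
    have hji : i ≤ j := by omega
    exact hLC j F a b T ε (hiC.trans hji) p0 (hq j hj) hE hT k3

end Pool.Agent.Helper69.EK
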